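import Pool.Agent.H28.Grow.WG

/-!
# The counting argument

From a finite group `L` with a generating set, an action, a family of walks that can be recovered
from their traces, and the facts `H1`-`H6` below, one gets a finite group and a symmetric set `S`
with `|S ^ ℓ| ≤ K |S ^ n|` and `C |S ^ n| < |S ^ (3 n)|`.
-/

set_option autoImplicit false
set_option linter.unusedSectionVars false

open scoped Pointwise

namespace Pool.Agent.H28.Grow

/-- The set on which `L` acts. -/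
def Om (L Ω₁ : Type) : Type := Ω₁ ⊕ ((Finset L × Bool) × L)

section

variable {L Ω₁ : Type} [Group L] [MulAction L Ω₁]

instance : MulAction L (Om L Ω₁) where
  smul g z := Sum.map (fun z => g • z) (fun p => (p.1, g * p.2)) z
  one_smul := by
    rintro (z | ⟨T, x⟩)
    · exact congrArg Sum.inl (one_smul L z)
    · show Sum.inr _ = _
      simp only [one_mul]
  mul_smul := by
    rintro g h (z | ⟨T, x⟩)
    · exact congrArg Sum.inl (mul_smul g h z)
    · show Sum.inr _ = Sum.inr _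
      simp only [mul_assoc]

/-- The first kind of points. -/
def Om.l (z : Ω₁) : Om L Ω₁ := Sum.inl z

/-- The second kind of points. -/
def Om.r (T : Finset L) (c : Bool) (x : L) : Om L Ω₁ := Sum.inr ((T, c), x)

theorem Om.cases (z : Om L Ω₁) : (∃ z', z = Om.l z') ∨ ∃ T c x, z = Om.r T c x := by
  rcases z with z' | ⟨⟨T, c⟩, x⟩
  · exact Or.inl ⟨z', rfl⟩
  · exact Or.inr ⟨T, c, x, rfl⟩

theorem Om.smul_l (g : L) (z : Ω₁) : g • (Om.l z : Om L Ω₁) = Om.l (g • z) := rfl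

theorem Om.smul_r (g : L) (T : Finset L) (c : Bool) (x : L) :
    g • (Om.r T c x : Om L Ω₁) = Om.r T c (g * x) := rfl

end

instance (L Ω₁ : Type) [Fintype L] [Fintype Ω₁] : Fintype (Om L Ω₁) :=
  inferInstanceAs (Fintype (Ω₁ ⊕ ((Finset L × Bool) × L)))

section count

variable {Ω : Type} [Fintype Ω] (q : ℕ) [NeZero q]

theorem card_vanish (F : Finset Ω) :
    ({v : Ω → ZMod q | ∀ z ∈ F, v z = 0}).ncard * q ^ F.card = q ^ Fintype.card Ω := by
  classical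
  have e : {v : Ω → ZMod q | ∀ z ∈ F, v z = 0} =
      ↑(Fintype.piFinset (fun z => if z ∈ F then ({0} : Finset (ZMod q)) else Finset.univ)) := by
    ext v
    simp only [Set.mem_ofPred_eq, Finset.mem_coe, Fintype.mem_piFinset]
    constructor
    · intro h z
      by_cases hz : z ∈ F
      · simp [hz, h z hz]
      · simp [hz]
    · intro h z hz
      have := h z
      simpa [hz] using this
  rw [e, Set.ncard_coe_finset, Fintype.card_piFinset]
  have e2 : q ^ F.card = ∏ z : Ω, (if z ∈ F then q else 1) := by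
    rw [Finset.prod_ite_mem, Finset.univ_inter, Finset.prod_const]
  rw [e2, ← Finset.prod_mul_distrib]
  have e3 : ∀ z : Ω, (if z ∈ F then ({0} : Finset (ZMod q)) else Finset.univ).card *
      (if z ∈ F then q else 1) = q := by
    intro z
    by_cases hz : z ∈ F
    · simp [hz]
    · simp [hz, ZMod.card]
  rw [Finset.prod_congr rfl (fun z _ => e3 z), Finset.prod_const, Finset.card_univ]

variable {L : Type} [Fintype L]

/-- The elements over `y` whose function part vanishes on `F`. -/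
def Fib (F : Finset Ω) (y : L) : Set (WG L Ω (ZMod q)) := {g | g.y = y ∧ ∀ z ∈ F, g.v z = 0}

theorem card_fib (F : Finset Ω) (y : L) :
    (Fib q F y).ncard * q ^ F.card = q ^ Fintype.card Ω := by
  rw [← card_vanish q F]
  congr 1
  have e : Fib q F y = (fun v : Ω → ZMod q => (⟨v, y⟩ : WG L Ω (ZMod q))) ''
      {v : Ω → ZMod q | ∀ z ∈ F, v z = 0} := by
    ext g
    constructor
    · rintro ⟨h1, h2⟩
      exact ⟨g.v, h2, by rw [← h1]⟩
    · rintro ⟨v, h2, rfl⟩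
      exact ⟨rfl, h2⟩
  rw [e, Set.ncard_image_of_injective]
  intro v v' h
  exact congrArg WG.v h

end count

section main

variable {L : Type} [Group L] [Fintype L] (Sg : Set L) {Ω₁ : Type} [Fintype Ω₁] [MulAction L Ω₁]
  (M₁ : Set Ω₁) {ι : Type} [Fintype ι] (w : ι → ℕ → L) (n ℓ : ℕ)

/-- `T` is the trace of a walk of length `ℓ` and contains no translate of a seed. -/
def Bad (T : Finset L) : Prop :=
  (∃ τ : ℕ → L, IsWalk Sg ℓ τ ∧ (∀ x, x ∈ T ↔ ∃ j ≤ ℓ, τ j = x)) ∧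
    ∀ (s : ι) (u : L), ∃ i ≤ n, w s i * u ∉ T

/-- The set of points. -/
def MM : Set (Om L Ω₁) :=
  {p | (∃ z ∈ M₁, p = Om.l z) ∨ ∃ T c x, Bad Sg w n ℓ T ∧ x ∈ T ∧ p = Om.r T c x}

theorem mem_MM_l (z : Ω₁) : (Om.l z : Om L Ω₁) ∈ MM Sg M₁ w n ℓ ↔ z ∈ M₁ := by
  constructor
  · rintro (⟨z', h, e⟩ | ⟨T, c, x, h1, h2, e⟩)
    · have : z = z' := Sum.inl_injective e
      rw [this]; exact h
    · exact absurd e (by simp [Om.l, Om.r])
  · intro h
    exact Or.inl ⟨z, h, rfl⟩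

theorem mem_MM_r (T : Finset L) (c : Bool) (x : L) :
    (Om.r T c x : Om L Ω₁) ∈ MM Sg M₁ w n ℓ ↔ Bad Sg w n ℓ T ∧ x ∈ T := by
  constructor
  · rintro (⟨z', h, e⟩ | ⟨T', c', x', h1, h2, e⟩)
    · exact absurd e (by simp [Om.l, Om.r])
    · have := Sum.inr_injective e
      simp only [Prod.mk.injEq] at this
      obtain ⟨⟨rfl, rfl⟩, rfl⟩ := this
      exact ⟨h1, h2⟩
  · intro h
    exact Or.inr ⟨T, c, x, h.1, h.2, rfl⟩

variable (z : ι → Ω₁) (Q : Finset (Ω₁ × L)) (q : ℕ) [NeZero q]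

/-- lower bound for the power `n` -/
theorem lower (hn : 1 ≤ n)
    (H1 : ∀ s, IsWalk Sg n (w s))
    (H2 : ∀ s z', (∀ i ≤ n, w s i • z' ∈ M₁) → z' = z s)
    (H3 : Function.Injective (fun s => w s n)) :
    Fintype.card ι * q ^ Fintype.card (Om L Ω₁) ≤
      ((GS (ZMod q) Sg (MM Sg M₁ w n ℓ)) ^ n).ncard * q := by
  classical
  rw [pow_eq _ _ _ hn]
  have hsub : (⋃ s : ι, Fib q {(Om.l (z s) : Om L Ω₁)} (w s n)⁻¹) ⊆
      Reach (ZMod q) Sg (MM Sg M₁ w n ℓ) n := by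
    intro g hg
    simp only [Set.mem_iUnion] at hg
    obtain ⟨s, h1, h2⟩ := hg
    refine ⟨w s, H1 s, h1, ?_⟩
    intro z0 hz
    rcases Om.cases z0 with ⟨z', rfl⟩ | ⟨T, c, x, rfl⟩
    · have hz' : ∀ i ≤ n, w s i • z' ∈ M₁ := by
        intro i hi
        have := hz i hi
        exact (mem_MM_l Sg M₁ w n ℓ _).1 this
      have e := H2 s z' hz'
      apply h2
      rw [Finset.mem_singleton, e]
    · exfalso
      have h0 := (mem_MM_r Sg M₁ w n ℓ T c _).1 (hz 0 (Nat.zero_le _))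
      obtain ⟨i, hi, hi'⟩ := h0.1.2 s x
      exact hi' ((mem_MM_r Sg M₁ w n ℓ T c _).1 (hz i hi)).2
  have hdisj : Pairwise (Function.onFun Disjoint
      (fun s => Fib q {(Om.l (z s) : Om L Ω₁)} (w s n)⁻¹)) := by
    intro s s' hss
    rw [Function.onFun, Set.disjoint_left]
    intro g h1 h2
    apply hss
    apply H3
    have := h1.1.symm.trans h2.1
    exact inv_injective this
  have hcard : (⋃ s : ι, Fib q {(Om.l (z s) : Om L Ω₁)} (w s n)⁻¹).ncard * q =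
      Fintype.card ι * q ^ Fintype.card (Om L Ω₁) := by
    rw [Set.ncard_iUnion_of_finite (fun s => Set.toFinite _) hdisj, finsum_eq_sum_of_fintype,
      Finset.sum_mul]
    have e : ∀ s : ι, (Fib q {(Om.l (z s) : Om L Ω₁)} (w s n)⁻¹).ncard * q =
        q ^ Fintype.card (Om L Ω₁) := by
      intro s
      have := card_fib q {(Om.l (z s) : Om L Ω₁)} (w s n)⁻¹
      rwa [Finset.card_singleton, pow_one] at this
    rw [Finset.sum_congr rfl (fun s _ => e s), Finset.sum_const, Finset.card_univ, smul_eq_mul]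
  rw [← hcard]
  exact Nat.mul_le_mul_right _ (Set.ncard_le_ncard hsub (Set.toFinite _))

/-- lower bound for the power `r` when some walk of length `r` kills everything -/
theorem full (r : ℕ) (hr : 1 ≤ r) (κ : ℕ → L) (H6 : IsWalk Sg r κ)
    (H6' : ∀ z' : Ω₁, ∃ i ≤ r, κ i • z' ∉ M₁)
    (F : Finset L) (hF : ∀ x ∈ F, ∃ i ≤ r, κ i = x) (hF' : ℓ + 2 ≤ F.card) :
    q ^ Fintype.card (Om L Ω₁) ≤ ((GS (ZMod q) Sg (MM Sg M₁ w n ℓ)) ^ r).ncard := by
  classical
  rw [pow_eq _ _ _ hr]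
  have hsub : Fib q (∅ : Finset (Om L Ω₁)) (κ r)⁻¹ ⊆
      Reach (ZMod q) Sg (MM Sg M₁ w n ℓ) r := by
    rintro g ⟨h1, -⟩
    refine ⟨κ, H6, h1, ?_⟩
    intro z0 hz
    exfalso
    rcases Om.cases z0 with ⟨z', rfl⟩ | ⟨T, c, x, rfl⟩
    · obtain ⟨i, hi, hi'⟩ := H6' z'
      exact hi' ((mem_MM_l Sg M₁ w n ℓ _).1 (hz i hi))
    · have h0 := (mem_MM_r Sg M₁ w n ℓ T c _).1 (hz 0 (Nat.zero_le _))
      obtain ⟨⟨⟨τ, hτ, hT⟩, -⟩, -⟩ := h0
      have h1 : (F.image (fun y => y * x)) ⊆ T := by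
        intro y hy
        rw [Finset.mem_image] at hy
        obtain ⟨y', hy', rfl⟩ := hy
        obtain ⟨i, hi, rfl⟩ := hF y' hy'
        exact ((mem_MM_r Sg M₁ w n ℓ T c _).1 (hz i hi)).2
      have h2 : T ⊆ (Finset.range (ℓ + 1)).image τ := by
        intro y hy
        obtain ⟨j, hj, rfl⟩ := (hT y).1 hy
        exact Finset.mem_image_of_mem _ (Finset.mem_range.2 (by omega))
      have h3 := Finset.card_le_card h1
      have h4 := Finset.card_le_card h2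
      have h5 : ((Finset.range (ℓ + 1)).image τ).card ≤ ℓ + 1 := by
        refine Finset.card_image_le.trans ?_
        rw [Finset.card_range]
      rw [Finset.card_image_of_injective _ (mul_left_injective x)] at h3
      omega
  have h1 := Set.ncard_le_ncard hsub (Set.toFinite _)
  have h2 := card_fib q (∅ : Finset (Om L Ω₁)) (κ r)⁻¹
  rw [Finset.card_empty, pow_zero, mul_one] at h2
  rw [← h2]
  exact h1

/-- upper bound for the power `ℓ` -/
theorem upper (hℓ : 1 ≤ ℓ)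
    (H4 : ∀ τ, IsWalk Sg ℓ τ → (∃ s u, ∀ i ≤ n, ∃ j ≤ ℓ, w s i * u = τ j) →
      ∃ z', (∀ j ≤ ℓ, τ j • z' ∈ M₁) ∧ (z', τ ℓ) ∈ Q)
    (hq : 2 ^ Fintype.card L * Fintype.card L ≤ q) :
    ((GS (ZMod q) Sg (MM Sg M₁ w n ℓ)) ^ ℓ).ncard * q ≤
      (Q.card + 1) * q ^ Fintype.card (Om L Ω₁) := by
  classical
  rw [pow_eq _ _ _ hℓ]
  have hq0 : 0 < q := Nat.pos_of_ne_zero (NeZero.ne q)
  have hsub : Reach (ZMod q) Sg (MM Sg M₁ w n ℓ) ℓ ⊆
      (⋃ p ∈ Q, Fib q {(Om.l p.1 : Om L Ω₁)} (p.2)⁻¹) ∪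
      (⋃ p ∈ (Finset.univ : Finset (Finset L × L)),
        Fib q ({Om.r p.1 false 1, Om.r p.1 true 1} : Finset (Om L Ω₁)) p.2) := by
    rintro g ⟨τ, hτ, hy, hv⟩
    by_cases hs : ∃ s u, ∀ i ≤ n, ∃ j ≤ ℓ, w s i * u = τ j
    · left
      obtain ⟨z', h1, h2⟩ := H4 τ hτ hs
      simp only [Set.mem_iUnion]
      refine ⟨(z', τ ℓ), h2, hy, ?_⟩
      intro z0 hz0
      rw [Finset.mem_singleton] at hz0
      subst hz0
      apply hv
      intro i hi
      rw [Om.smul_l]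
      exact (mem_MM_l Sg M₁ w n ℓ _).2 (h1 i hi)
    · right
      simp only [Set.mem_iUnion]
      have hT : ∀ x, x ∈ (Finset.range (ℓ + 1)).image τ ↔ ∃ j ≤ ℓ, τ j = x := by
        intro x
        simp only [Finset.mem_image, Finset.mem_range, Nat.lt_succ_iff]
      have hBad : Bad Sg w n ℓ ((Finset.range (ℓ + 1)).image τ) := by
        refine ⟨⟨τ, hτ, hT⟩, ?_⟩
        intro s u
        by_contra hcon
        apply hs
        refine ⟨s, u, ?_⟩
        intro i hi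
        by_contra hcon2
        apply hcon
        refine ⟨i, hi, ?_⟩
        intro hmem
        apply hcon2
        obtain ⟨j, hj, hj'⟩ := (hT _).1 hmem
        exact ⟨j, hj, hj'.symm⟩
      refine ⟨((Finset.range (ℓ + 1)).image τ, (τ ℓ)⁻¹), Finset.mem_univ _, hy, ?_⟩
      have key : ∀ c, g.v (Om.r ((Finset.range (ℓ + 1)).image τ) c 1) = 0 := by
        intro c
        apply hv
        intro i hi
        rw [Om.smul_r, mul_one]
        exact (mem_MM_r Sg M₁ w n ℓ _ c _).2 ⟨hBad, (hT _).2 ⟨i, hi, rfl⟩⟩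
      intro z0 hz0
      rw [Finset.mem_insert, Finset.mem_singleton] at hz0
      rcases hz0 with rfl | rfl
      · exact key false
      · exact key true
  have h1 := (Set.ncard_le_ncard hsub (Set.toFinite _)).trans (Set.ncard_union_le _ _)
  have h2 := Finset.set_ncard_biUnion_le Q
    (fun p => Fib q {(Om.l p.1 : Om L Ω₁)} (p.2)⁻¹)
  have h3 := Finset.set_ncard_biUnion_le (Finset.univ : Finset (Finset L × L))
    (fun p => Fib q ({Om.r p.1 false 1, Om.r p.1 true 1} : Finset (Om L Ω₁)) p.2)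
  have e2 : (∑ p ∈ Q, (Fib q {(Om.l p.1 : Om L Ω₁)} (p.2)⁻¹).ncard) * q =
      Q.card * q ^ Fintype.card (Om L Ω₁) := by
    rw [Finset.sum_mul]
    have e : ∀ p : Ω₁ × L, (Fib q {(Om.l p.1 : Om L Ω₁)} (p.2)⁻¹).ncard * q =
        q ^ Fintype.card (Om L Ω₁) := by
      intro p
      have := card_fib q {(Om.l p.1 : Om L Ω₁)} (p.2)⁻¹
      rwa [Finset.card_singleton, pow_one] at this
    rw [Finset.sum_congr rfl (fun s _ => e s), Finset.sum_const, smul_eq_mul]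
  have e3 : (∑ p ∈ (Finset.univ : Finset (Finset L × L)),
      (Fib q ({Om.r p.1 false 1, Om.r p.1 true 1} : Finset (Om L Ω₁)) p.2).ncard) * q ^ 2 =
      (2 ^ Fintype.card L * Fintype.card L) * q ^ Fintype.card (Om L Ω₁) := by
    rw [Finset.sum_mul]
    have e : ∀ p : Finset L × L,
        (Fib q ({Om.r p.1 false 1, Om.r p.1 true 1} : Finset (Om L Ω₁)) p.2).ncard * q ^ 2 =
        q ^ Fintype.card (Om L Ω₁) := by
      intro p
      have := card_fib q ({Om.r p.1 false 1, Om.r p.1 true 1} : Finset (Om L Ω₁)) p.2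
      rwa [Finset.card_pair] at this
      intro hcon
      have := Sum.inr_injective hcon
      simp only [Prod.mk.injEq] at this
      exact absurd this.1.2 (by simp)
    rw [Finset.sum_congr rfl (fun s _ => e s), Finset.sum_const, smul_eq_mul, Finset.card_univ,
      Fintype.card_prod, Fintype.card_finset]
  have e4 : (∑ p ∈ (Finset.univ : Finset (Finset L × L)),
      (Fib q ({Om.r p.1 false 1, Om.r p.1 true 1} : Finset (Om L Ω₁)) p.2).ncard) * q ≤
      q ^ Fintype.card (Om L Ω₁) := by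
    have : ((∑ p ∈ (Finset.univ : Finset (Finset L × L)),
      (Fib q ({Om.r p.1 false 1, Om.r p.1 true 1} : Finset (Om L Ω₁)) p.2).ncard) * q) * q ≤
      (q ^ Fintype.card (Om L Ω₁)) * q := by
      calc _ = (∑ p ∈ (Finset.univ : Finset (Finset L × L)),
          (Fib q ({Om.r p.1 false 1, Om.r p.1 true 1} : Finset (Om L Ω₁)) p.2).ncard) * q ^ 2 := by ring
        _ = _ := e3
        _ ≤ q * q ^ Fintype.card (Om L Ω₁) := Nat.mul_le_mul_right _ hq
        _ = _ := by ring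
    exact Nat.le_of_mul_le_mul_right this hq0
  calc _ ≤ ((∑ p ∈ Q, (Fib q {(Om.l p.1 : Om L Ω₁)} (p.2)⁻¹).ncard) +
      (∑ p ∈ (Finset.univ : Finset (Finset L × L)),
      (Fib q ({Om.r p.1 false 1, Om.r p.1 true 1} : Finset (Om L Ω₁)) p.2).ncard)) * q :=
        Nat.mul_le_mul_right _ (h1.trans (Nat.add_le_add h2 h3))
    _ ≤ _ := by
      rw [add_mul, e2, add_mul, one_mul]
      exact Nat.add_le_add_left e4 _

end main

/-- The counting theorem. -/
theorem counting {L : Type} [Group L] [Finite L] (Sg : Set L) (h1g : (1 : L) ∈ Sg)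
    (hinv : ∀ x ∈ Sg, x⁻¹ ∈ Sg) {Ω₁ : Type} [Finite Ω₁] [MulAction L Ω₁] (M₁ : Set Ω₁)
    {ι : Type} [Fintype ι] [Nonempty ι] (w : ι → ℕ → L) (z : ι → Ω₁) (Q : Finset (Ω₁ × L))
    (n ℓ K : ℕ) (hn : 1 ≤ n) (hnℓ : n ≤ ℓ)
    (H1 : ∀ s, IsWalk Sg n (w s))
    (H2 : ∀ s z', (∀ i ≤ n, w s i • z' ∈ M₁) → z' = z s)
    (H3 : Function.Injective (fun s => w s n))
    (H4 : ∀ τ, IsWalk Sg ℓ τ → (∃ s u, ∀ i ≤ n, ∃ j ≤ ℓ, w s i * u = τ j) →
      ∃ z', (∀ j ≤ ℓ, τ j • z' ∈ M₁) ∧ (z', τ ℓ) ∈ Q)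
    (H5 : Q.card + 1 ≤ K * Fintype.card ι)
    (H6 : ∃ κ : ℕ → L, IsWalk Sg (3 * n) κ ∧ (∀ z' : Ω₁, ∃ i ≤ 3 * n, κ i • z' ∉ M₁) ∧
      ∃ F : Finset L, (∀ x ∈ F, ∃ i ≤ 3 * n, κ i = x) ∧ ℓ + 2 ≤ F.card)
    (C : ℕ) :
    ∃ (G : Type) (_ : Group G) (_ : Finite G) (S : Set G), S⁻¹ = S ∧ (1 : G) ∈ S ∧
      (S ^ ℓ).ncard ≤ K * (S ^ n).ncard ∧ C * (S ^ n).ncard < (S ^ (3 * n)).ncard := by
  classical
  have : Fintype L := Fintype.ofFinite L
  have : Fintype Ω₁ := Fintype.ofFinite Ω₁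
  obtain ⟨κ, hκ1, hκ2, F, hF1, hF2⟩ := H6
  obtain ⟨q, hq⟩ : ∃ q, q = 2 ^ Fintype.card L * Fintype.card L + C * (Q.card + 1) + 1 := ⟨_, rfl⟩
  have hq0 : 0 < q := by omega
  have : NeZero q := ⟨by omega⟩
  have hlow := lower Sg M₁ w n ℓ z q hn H1 H2 H3
  have hup := upper Sg M₁ w n ℓ Q q (by omega) H4 (by omega)
  have hfull := full Sg M₁ w n ℓ q (3 * n) (by omega) κ hκ1 hκ2 F hF1 hF2
  have hone := one_mem_GS (A := ZMod q) Sg h1g (MM Sg M₁ w n ℓ)
  refine ⟨WG L (Om L Ω₁) (ZMod q), inferInstance, inferInstance,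
    GS (ZMod q) Sg (MM Sg M₁ w n ℓ), GS_inv Sg hinv _, hone, ?_, ?_⟩
  · have : ((GS (ZMod q) Sg (MM Sg M₁ w n ℓ)) ^ ℓ).ncard * q ≤
      (K * ((GS (ZMod q) Sg (MM Sg M₁ w n ℓ)) ^ n).ncard) * q := by
      refine hup.trans ((Nat.mul_le_mul_right _ H5).trans ?_)
      rw [mul_assoc, mul_assoc]
      exact Nat.mul_le_mul_left _ hlow
    exact Nat.le_of_mul_le_mul_right this hq0
  · have hsub : (GS (ZMod q) Sg (MM Sg M₁ w n ℓ)) ^ n ⊆ (GS (ZMod q) Sg (MM Sg M₁ w n ℓ)) ^ ℓ :=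
      Set.pow_subset_pow_right hone hnℓ
    have hc := Set.ncard_le_ncard hsub (Set.toFinite _)
    have hpos : 0 < ((GS (ZMod q) Sg (MM Sg M₁ w n ℓ)) ^ n).ncard := by
      rw [Set.ncard_pos (Set.toFinite _)]
      exact ⟨1, Set.one_mem_pow hone⟩
    have h1 : (Q.card + 1) * (C * ((GS (ZMod q) Sg (MM Sg M₁ w n ℓ)) ^ n).ncard) <
        (Q.card + 1) * ((GS (ZMod q) Sg (MM Sg M₁ w n ℓ)) ^ (3 * n)).ncard := by
      calc _ = (C * (Q.card + 1)) * ((GS (ZMod q) Sg (MM Sg M₁ w n ℓ)) ^ n).ncard := by ring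
        _ < q * ((GS (ZMod q) Sg (MM Sg M₁ w n ℓ)) ^ n).ncard :=
          Nat.mul_lt_mul_of_pos_right (by omega) hpos
        _ ≤ q * ((GS (ZMod q) Sg (MM Sg M₁ w n ℓ)) ^ ℓ).ncard := Nat.mul_le_mul_left _ hc
        _ = ((GS (ZMod q) Sg (MM Sg M₁ w n ℓ)) ^ ℓ).ncard * q := by ring
        _ ≤ _ := hup
        _ ≤ _ := Nat.mul_le_mul_left _ hfull
    exact Nat.lt_of_mul_lt_mul_left h1

end Pool.Agent.H28.Grow
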