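import Pool.Agent.H28.Grow.Fwd

/-!
# A counterexample: doubling at the scale `(1 + ε) n` does not control the scale `3 n`
-/

set_option autoImplicit false
set_option linter.unusedSectionVars false

open scoped Pointwise

namespace Pool.Agent.H28.Grow

/-- the index type of the seeds -/
abbrev Ix (J : ℕ) : Type :=
  Fin (2 * J + 1) × Fin (2 * J + 1) × (Fin (12 * J) → ZMod 2) × (Fin (12 * J) → ZMod 2)

/-- the lamps of a seed -/
def lampG (J : ℕ) (G1 G2 : Fin (12 * J) → ZMod 2) (o : ℕ) : ZMod 2 :=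
  if o = 0 then 1
  else if h : 1 ≤ o ∧ o ≤ 12 * J then G1 ⟨o - 1, by omega⟩
  else if h : 22 * J + 1 ≤ o ∧ o ≤ 34 * J then G2 ⟨o - (22 * J + 1), by omega⟩
  else if o = 34 * J + 1 then 1 else 0

theorem seedOK (J : ℕ) (hJ : 1 ≤ J) (p : Ix J) :
    SeedOK J (5 * J + p.1) (5 * J + p.2.1) (lampG J p.2.2.1 p.2.2.2) where
  J1 := hJ
  h0 := by omega
  h0' := by have := p.1.2; omega
  h1 := by omega
  h1' := by have := p.2.1.2; omega
  g0 := by simp [lampG]
  gL := by
    unfold lampG
    rw [if_neg (by omega), dif_neg (by omega), dif_neg (by omega), if_pos rfl]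
  gw := by
    intro o ho
    by_contra hcon
    apply ho
    unfold lampG
    rw [if_neg (by omega), dif_neg (by omega), dif_neg (by omega), if_neg (by omega)]

theorem lampG_lo (J : ℕ) (G1 G2 : Fin (12 * J) → ZMod 2) (a : Fin (12 * J)) :
    lampG J G1 G2 (a + 1) = G1 a := by
  have ha := a.2
  unfold lampG
  rw [if_neg (by omega), dif_pos (by omega)]
  congr 1

theorem lampG_hi (J : ℕ) (G1 G2 : Fin (12 * J) → ZMod 2) (a : Fin (12 * J)) :
    lampG J G1 G2 (a + (22 * J + 1)) = G2 a := by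
  have ha := a.2
  unfold lampG
  rw [if_neg (by omega), dif_neg (by omega), dif_pos (by omega)]
  congr 1
  apply Fin.ext
  simp

theorem lampG_inj (J : ℕ) {G1 G2 G1' G2' : Fin (12 * J) → ZMod 2}
    (h : ∀ o < 34 * J + 2, lampG J G1 G2 o = lampG J G1' G2' o) : G1 = G1' ∧ G2 = G2' := by
  constructor
  · funext a
    have ha := a.2
    have := h (a + 1) (by omega)
    rwa [lampG_lo, lampG_lo] at this
  · funext a
    have ha := a.2
    have := h (a + (22 * J + 1)) (by omega)
    rwa [lampG_hi, lampG_hi] at this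

section

variable {m : ℕ} [NeZero m]

theorem end_s0 {J s0 s1 s0' s1' : ℕ} {G G' : ℕ → ZMod 2} (hm : 200 * J + 10 ≤ m)
    (h : SeedOK J s0 s1 G) (h' : SeedOK J s0' s1' G')
    (e : sw m J s0 s1 G (48 * J + 1) = sw m J s0' s1' G' (48 * J + 1)) : s0' ≤ s0 := by
  obtain ⟨hJ, h0, h0', h1, h1', g0, gL, gw⟩ := h
  obtain ⟨-, k0, k0', k1, k1', kg0, kgL, kgw⟩ := h'
  have pN : prg J s0 (48 * J + 1) = 34 * J + 2 := by
    unfold prg; split_ifs <;> omega
  have pN' : prg J s0' (48 * J + 1) = 34 * J + 2 := by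
    unfold prg; split_ifs <;> omega
  by_contra hcon
  have hc := congrArg (fun a => LG.cfg a (- (s0' : ZMod m))) e
  simp only [sw_cfg, pN, pN', neg_add_cancel, ZMod.val_zero, kg0] at hc
  rw [if_pos (show 0 < 34 * J + 2 by omega)] at hc
  by_cases hx : (-(s0' : ZMod m) + (s0 : ZMod m)).val < 34 * J + 2
  · have hz : (((-(s0' : ZMod m) + (s0 : ZMod m)).val + (s0' - s0) : ℕ) : ZMod m) =
        ((0 : ℕ) : ZMod m) := by
      rw [Nat.cast_add, ZMod.natCast_zmod_val, Nat.cast_sub (by omega), Nat.cast_zero]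
      ring
    have := cast_inj (by omega) (by omega) hz
    omega
  · rw [if_neg hx] at hc
    exact absurd hc (by decide)

/-- a seed is determined by its end point -/
theorem end_inj (J : ℕ) (hJ : 1 ≤ J) (hm : 200 * J + 10 ≤ m) :
    Function.Injective (fun p : Ix J =>
      sw m J (5 * J + p.1) (5 * J + p.2.1) (lampG J p.2.2.1 p.2.2.2) (48 * J + 1)) := by
  intro p p' e
  simp only at e
  have hp := seedOK J hJ p
  have hp' := seedOK J hJ p'
  have e0 : 5 * J + (p.1 : ℕ) = 5 * J + (p'.1 : ℕ) :=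
    le_antisymm (end_s0 hm hp' hp e.symm) (end_s0 hm hp hp' e)
  have b1 := hp.h0'
  have b2 := hp.h1'
  have b3 := hp'.h0'
  have b4 := hp'.h1'
  have c1 := hp.h0
  have c2 := hp.h1
  have c3 := hp'.h0
  have c4 := hp'.h1
  have cN : cur J (5 * J + p.1) (5 * J + p.2.1) (48 * J + 1) = 22 * J + 1 + (5 * J + p.2.1) := by
    unfold cur; split_ifs <;> omega
  have cN' : cur J (5 * J + p'.1) (5 * J + p'.2.1) (48 * J + 1) =
      22 * J + 1 + (5 * J + p'.2.1) := by
    unfold cur; split_ifs <;> omega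
  have pN : prg J (5 * J + p.1) (48 * J + 1) = 34 * J + 2 := by
    unfold prg; split_ifs <;> omega
  have pN' : prg J (5 * J + p'.1) (48 * J + 1) = 34 * J + 2 := by
    unfold prg; split_ifs <;> omega
  have e1 : 22 * J + 1 + (5 * J + (p.2.1 : ℕ)) = 22 * J + 1 + (5 * J + (p'.2.1 : ℕ)) := by
    have := congrArg LG.pos e
    rw [sw_pos, sw_pos, cN, cN', e0, sub_left_inj] at this
    exact cast_inj (by omega) (by omega) this
  have e2 : ∀ o < 34 * J + 2, lampG J p.2.2.1 p.2.2.2 o = lampG J p'.2.2.1 p'.2.2.2 o := by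
    intro o ho
    have := congrArg (fun a => LG.cfg a ((o : ZMod m) - ((5 * J + p.1 : ℕ) : ZMod m))) e
    simp only [sw_cfg, pN, pN'] at this
    rw [← e0, sub_add_cancel, ZMod.val_cast_of_lt (by omega), if_pos ho, if_pos ho] at this
    exact this
  obtain ⟨e3, e4⟩ := lampG_inj J e2
  have e5 : p.1 = p'.1 := Fin.ext (by omega)
  have e6 : p.2.1 = p'.2.1 := Fin.ext (by omega)
  exact Prod.ext e5 (Prod.ext e6 (Prod.ext e3 e4))

variable (m) in
/-- the walk that kills every configuration -/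
def kw (J : ℕ) (i : ℕ) : LG m :=
  ⟨((min i (51 * J + 2) : ℕ) : ZMod m),
    fun y => if 34 * J + 2 ≤ i ∧ y = ((34 * J + 1 : ℕ) : ZMod m) then 1 else 0⟩

theorem kw_walk (J n : ℕ) : IsWalk (Sl m) n (kw m J) := by
  refine ⟨?_, ?_⟩
  · ext y
    · show ((min 0 (51 * J + 2) : ℕ) : ZMod m) = 0
      simp
    · show (if 34 * J + 2 ≤ 0 ∧ y = ((34 * J + 1 : ℕ) : ZMod m) then (1 : ZMod 2) else 0) = 0
      rw [if_neg (by omega)]
  · intro i _
    apply step_mem
    · show ((min (i + 1) (51 * J + 2) : ℕ) : ZMod m) - ((min i (51 * J + 2) : ℕ) : ZMod m) = 0 ∨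
        ((min (i + 1) (51 * J + 2) : ℕ) : ZMod m) - ((min i (51 * J + 2) : ℕ) : ZMod m) = 1 ∨
        ((min (i + 1) (51 * J + 2) : ℕ) : ZMod m) - ((min i (51 * J + 2) : ℕ) : ZMod m) = -1
      rcases Nat.lt_or_ge i (51 * J + 2) with h | h
      · right; left
        rw [show min (i + 1) (51 * J + 2) = i + 1 by omega, show min i (51 * J + 2) = i by omega,
          Nat.cast_succ]
        ring
      · left
        rw [show min (i + 1) (51 * J + 2) = 51 * J + 2 by omega,
          show min i (51 * J + 2) = 51 * J + 2 by omega, sub_self]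
    · intro y hy
      left
      change (if 34 * J + 2 ≤ i ∧ y = ((34 * J + 1 : ℕ) : ZMod m) then (1 : ZMod 2) else 0) ≠
        (if 34 * J + 2 ≤ i + 1 ∧ y = ((34 * J + 1 : ℕ) : ZMod m) then (1 : ZMod 2) else 0) at hy
      show y = ((min i (51 * J + 2) : ℕ) : ZMod m)
      by_cases hc : y = ((34 * J + 1 : ℕ) : ZMod m)
      · have hi : i = 34 * J + 1 := by
          by_contra hne
          apply hy
          by_cases h1 : 34 * J + 2 ≤ i
          · rw [if_pos ⟨h1, hc⟩, if_pos ⟨by omega, hc⟩]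
          · rw [if_neg (fun h => h1 h.1), if_neg (fun h => by omega)]
        rw [hi, hc, show min (34 * J + 1) (51 * J + 2) = 34 * J + 1 by omega]
      · exfalso
        apply hy
        rw [if_neg (fun h => hc h.2), if_neg (fun h => hc h.2)]

theorem kw_kill (J : ℕ) (hm : 200 * J + 10 ≤ m) (z' : Cf m) :
    ∃ i ≤ 3 * (48 * J + 1), kw m J i • z' ∉ Rd (17 * J) := by
  by_cases hz : z' ((34 * J + 1 : ℕ) : ZMod m) = 0
  · refine ⟨51 * J + 2, by omega, ?_⟩
    intro hR
    have e : -((17 * J + 1 : ℕ) : ZMod m) + ((min (51 * J + 2) (51 * J + 2) : ℕ) : ZMod m) =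
        ((34 * J + 1 : ℕ) : ZMod m) := by
      rw [min_self]
      push_cast
      ring
    have := hR (-((17 * J + 1 : ℕ) : ZMod m)) (by
      rw [LG.smul_apply]
      show z' (-((17 * J + 1 : ℕ) : ZMod m) + ((min (51 * J + 2) (51 * J + 2) : ℕ) : ZMod m)) +
        (if 34 * J + 2 ≤ 51 * J + 2 ∧ -((17 * J + 1 : ℕ) : ZMod m) +
          ((min (51 * J + 2) (51 * J + 2) : ℕ) : ZMod m) = ((34 * J + 1 : ℕ) : ZMod m)
          then (1 : ZMod 2) else 0) ≠ 0
      rw [e, hz, if_pos ⟨by omega, rfl⟩]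
      decide)
    rw [nm_neg, nm_cast _ (by omega)] at this
    omega
  · refine ⟨0, by omega, ?_⟩
    intro hR
    have := hR ((34 * J + 1 : ℕ) : ZMod m) (by
      rw [(kw_walk (m := m) J 0).1, one_smul]
      exact hz)
    rw [nm_cast _ (by omega)] at this
    omega

end

theorem card_Par (J : ℕ) : Fintype.card (Par J) =
    (12 * J + 1) * ((12 * J + 1) * (2 ^ (12 * J + 1) * 2 ^ (12 * J + 1))) := by
  simp [Par, ZMod.card]

theorem card_Ix (J : ℕ) : Fintype.card (Ix J) =
    (2 * J + 1) * ((2 * J + 1) * (2 ^ (12 * J) * 2 ^ (12 * J))) := by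
  simp [Ix, ZMod.card]

theorem card_ineq (J : ℕ) : 2 * Fintype.card (Par J) + 1 ≤ 289 * Fintype.card (Ix J) := by
  rw [card_Par, card_Ix, pow_succ]
  have hT : 1 ≤ 2 ^ (12 * J) := Nat.one_le_two_pow
  generalize 2 ^ (12 * J) = T at hT
  have h1 : (12 * J + 1) * (12 * J + 1) ≤ (6 * (2 * J + 1)) * (6 * (2 * J + 1)) :=
    Nat.mul_le_mul (by omega) (by omega)
  have hT' : 0 < T := hT
  have h2 : 0 < (2 * J + 1) * (2 * J + 1) * (T * T) := by positivity
  have h3 := Nat.mul_le_mul_right (8 * (T * T)) h1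
  linarith

/-- The combinatorial form of the counterexample. -/
theorem main_comb (J C : ℕ) (hJ : 1 ≤ J) :
    ∃ (G : Type) (_ : Group G) (_ : Finite G) (S : Set G), S⁻¹ = S ∧ (1 : G) ∈ S ∧
      (S ^ (49 * J + 1)).ncard ≤ 289 * (S ^ (48 * J + 1)).ncard ∧
      C * (S ^ (48 * J + 1)).ncard < (S ^ (3 * (48 * J + 1))).ncard := by
  classical
  obtain ⟨m, hm⟩ : ∃ m, m = 200 * J + 10 := ⟨_, rfl⟩
  have : NeZero m := ⟨by omega⟩
  have hm' : 200 * J + 10 ≤ m := by omega
  have : Fintype (Cf m) := Fintype.ofFinite _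
  have : Fintype (LG m) := Fintype.ofFinite _
  refine counting (Sl m) one_mem_Sl inv_mem_Sl (Rd (17 * J) : Set (Cf m))
    (fun p : Ix J => sw m J (5 * J + p.1) (5 * J + p.2.1) (lampG J p.2.2.1 p.2.2.2))
    (fun p => zs m J (5 * J + p.1) (lampG J p.2.2.1 p.2.2.2))
    ((Finset.univ.image (Pz m J)) ∪
      (Finset.univ.image (Pz m J)).image (fun q => (q.2 • q.1, q.2⁻¹)))
    (48 * J + 1) (49 * J + 1) 289 (by omega) (by omega) ?_ ?_ ?_ ?_ ?_ ?_ C
  · intro p
    exact sw_walk (seedOK J hJ p) _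
  · intro p z' hz'
    exact sw_unique hm' (seedOK J hJ p) z' hz'
  · exact end_inj J hJ hm'
  · rintro τ hτ ⟨p, u, hT⟩
    have hp := seedOK J hJ p
    obtain ⟨j0, hj0, e0⟩ := hT 0 (by omega)
    rw [(sw_walk hp 0).1, one_mul] at e0
    obtain ⟨jm, hjm, em⟩ := hT (48 * J + 1) le_rfl
    rcases le_total j0 jm with hle | hle
    · obtain ⟨z', h1, par, h2⟩ := forward hm' hp hτ u hT j0 (jm - j0) (by omega) e0.symm
        (by rw [show j0 + (jm - j0) = jm by omega]; exact em.symm)
      refine ⟨z', h1, ?_⟩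
      rw [Finset.mem_union]
      left
      rw [Finset.mem_image]
      exact ⟨par, Finset.mem_univ _, h2⟩
    · -- the reversed walk
      have hτ' : IsWalk (Sl m) (49 * J + 1)
          (fun j => τ (49 * J + 1 - j) * (τ (49 * J + 1))⁻¹) := by
        refine ⟨?_, ?_⟩
        · simp only [Nat.sub_zero, mul_inv_cancel]
        · intro i hi
          have := inv_mem_Sl _ (hτ.2 (49 * J + 1 - (i + 1)) (by omega))
          rw [show 49 * J + 1 - (i + 1) + 1 = 49 * J + 1 - i by omega] at this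
          simp only
          convert this using 1
          group
      have hT' : ∀ i ≤ 48 * J + 1, ∃ j ≤ 49 * J + 1,
          sw m J (5 * J + p.1) (5 * J + p.2.1) (lampG J p.2.2.1 p.2.2.2) i *
            (u * (τ (49 * J + 1))⁻¹) = τ (49 * J + 1 - j) * (τ (49 * J + 1))⁻¹ := by
        intro i hi
        obtain ⟨j, hj, e⟩ := hT i hi
        refine ⟨49 * J + 1 - j, by omega, ?_⟩
        rw [show 49 * J + 1 - (49 * J + 1 - j) = j by omega, ← mul_assoc, e]
      obtain ⟨z', h1, par, h2⟩ := forward hm' hp hτ' (u * (τ (49 * J + 1))⁻¹) hT'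
        (49 * J + 1 - j0) (j0 - jm) (by omega)
        (by rw [show 49 * J + 1 - (49 * J + 1 - j0) = j0 by omega, e0])
        (by
          rw [show 49 * J + 1 - (49 * J + 1 - j0 + (j0 - jm)) = jm by omega, ← mul_assoc, em])
      refine ⟨(τ (49 * J + 1))⁻¹ • z', ?_, ?_⟩
      · intro j hj
        have := h1 (49 * J + 1 - j) (by omega)
        rw [show 49 * J + 1 - (49 * J + 1 - j) = j by omega, mul_smul] at this
        exact this
      · rw [Finset.mem_union]
        right
        rw [Finset.mem_image]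
        refine ⟨(z', (τ (49 * J + 1))⁻¹), ?_, ?_⟩
        · rw [Finset.mem_image]
          refine ⟨par, Finset.mem_univ _, ?_⟩
          rw [h2]
          simp only [Nat.sub_self, hτ.1, one_mul]
        · simp only [inv_inv]
  · refine le_trans ?_ (card_ineq J)
    have h1 := Finset.card_union_le (Finset.univ.image (Pz m J))
      ((Finset.univ.image (Pz m J)).image (fun q => (q.2 • q.1, q.2⁻¹)))
    have h2 : ((Finset.univ : Finset (Par J)).image (Pz m J)).card ≤ Fintype.card (Par J) :=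
      Finset.card_image_le
    have h3 : (((Finset.univ : Finset (Par J)).image (Pz m J)).image
      (fun q => (q.2 • q.1, q.2⁻¹))).card ≤
      ((Finset.univ : Finset (Par J)).image (Pz m J)).card := Finset.card_image_le
    omega
  · refine ⟨kw m J, kw_walk J _, kw_kill J hm', (Finset.range (51 * J + 3)).image (kw m J),
      ?_, ?_⟩
    · intro x hx
      rw [Finset.mem_image] at hx
      obtain ⟨i, hi, rfl⟩ := hx
      rw [Finset.mem_range] at hi
      exact ⟨i, by omega, rfl⟩
    · rw [Finset.card_image_of_injOn, Finset.card_range]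
      · omega
      · intro i hi j hj e
        rw [Finset.mem_coe, Finset.mem_range] at hi hj
        have := congrArg LG.pos e
        change ((min i (51 * J + 2) : ℕ) : ZMod m) = ((min j (51 * J + 2) : ℕ) : ZMod m) at this
        have := cast_inj (by omega) (by omega) this
        omega

end Pool.Agent.H28.Grow
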