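import Pool.Agent.H28.Grow.Seeds

/-!
# Walks whose trace contains a translate of a seed
-/

set_option autoImplicit false
set_option linter.unusedSectionVars false

namespace Pool.Agent.H28.Grow

variable {m : ℕ} [NeZero m] {J s0 s1 : ℕ} {G : ℕ → ZMod 2}

theorem cast_inj {a b : ℕ} (ha : a < m) (hb : b < m) (h : (a : ZMod m) = (b : ZMod m)) :
    a = b := by
  have := congrArg ZMod.val h
  rwa [ZMod.val_cast_of_lt ha, ZMod.val_cast_of_lt hb] at this

/-- the seed walk visits pairwise distinct elements up to the time `s0 + 46 J + 1 - s1` -/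
theorem sw_inj (hm : 200 * J + 10 ≤ m) (h : SeedOK J s0 s1 G) {i j : ℕ}
    (hi : i ≤ s0 + (34 * J + 1) + (12 * J - s1)) (hj : j ≤ s0 + (34 * J + 1) + (12 * J - s1))
    (e : sw m J s0 s1 G i = sw m J s0 s1 G j) : i = j := by
  obtain ⟨hJ, h0, h0', h1, h1', g0, gL, gw⟩ := h
  have e1 : cur J s0 s1 i = cur J s0 s1 j := by
    have := congrArg LG.pos e
    rw [sw_pos, sw_pos, sub_left_inj] at this
    apply cast_inj _ _ this
    · unfold cur; split_ifs <;> omega
    · unfold cur; split_ifs <;> omega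
  have key : ∀ o : ℕ, o < m → G o = 1 → (o < prg J s0 i ↔ o < prg J s0 j) := by
    intro o ho hG
    have := congrArg (fun a => LG.cfg a ((o : ZMod m) - (s0 : ZMod m))) e
    simp only [sw_cfg, sub_add_cancel, ZMod.val_cast_of_lt ho, hG] at this
    by_cases c1 : o < prg J s0 i <;> by_cases c2 : o < prg J s0 j
    · exact ⟨fun _ => c2, fun _ => c1⟩
    · rw [if_pos c1, if_neg c2] at this
      exact absurd this (by decide)
    · rw [if_neg c1, if_pos c2] at this
      exact absurd this (by decide)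
    · exact ⟨fun h => absurd h c1, fun h => absurd h c2⟩
  have k0 := key 0 (by omega) g0
  have kL := key (34 * J + 1) (by omega) gL
  unfold prg at k0 kL
  unfold cur at e1
  split_ifs at * <;> omega

/-- The time between `u` and `w n * u` along a walk is at least the length of the seed. -/
theorem sw_dist (hm : 200 * J + 10 ≤ m) (h : SeedOK J s0 s1 G) {ℓ : ℕ} {τ : ℕ → LG m}
    (hτ : IsWalk (Sl m) ℓ τ) (i d : ℕ) (hid : i + d ≤ ℓ)
    (he : τ (i + d) = sw m J s0 s1 G (48 * J + 1) * τ i) :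
    s0 + (34 * J + 1) + (12 * J - s1) ≤ d := by
  obtain ⟨hJ, h0, h0', h1, h1', g0, gL, gw⟩ := h
  have cN : cur J s0 s1 (48 * J + 1) = 22 * J + 1 + s1 := by
    unfold cur; split_ifs <;> omega
  have pN : prg J s0 (48 * J + 1) = 34 * J + 2 := by
    unfold prg; split_ifs <;> omega
  have hpos : (τ (i + d)).pos = (τ i).pos - (s0 : ZMod m) + ((22 * J + 1 + s1 : ℕ) : ZMod m) := by
    rw [he, LG.mul_pos, sw_pos, cN]; ring
  have hcfg : ∀ o : ℕ, o < 34 * J + 2 → G o = 1 →
      (τ i).cfg ((τ i).pos - (s0 : ZMod m) + (o : ZMod m)) ≠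
        (τ (i + d)).cfg ((τ i).pos - (s0 : ZMod m) + (o : ZMod m)) := by
    intro o ho hG hcon
    rw [he, LG.mul_cfg, sw_cfg, pN] at hcon
    have e : (τ i).pos - (s0 : ZMod m) + (o : ZMod m) - (τ i).pos + (s0 : ZMod m) =
        (o : ZMod m) := by ring
    rw [e, ZMod.val_cast_of_lt (by omega), if_pos ho, hG] at hcon
    revert hcon
    generalize (τ i).cfg _ = a
    revert a; decide
  obtain ⟨t1, ht1, ht1', hp1⟩ := visit hτ i _ d hid (hcfg 0 (by omega) g0)
  obtain ⟨t2, ht2, ht2', hp2⟩ := visit hτ i _ d hid (hcfg (34 * J + 1) (by omega) gL)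
  rw [Nat.cast_zero, add_zero] at hp1
  have near : ∀ a b : ℕ, a ≤ b → b ≤ ℓ → nm ((τ b).pos - (τ a).pos) ≤ b - a := by
    intro a b hab hb
    have := (near_walk hτ a (b - a) (by omega)).1
    rwa [show a + (b - a) = b by omega] at this
  rcases le_total t1 t2 with ht | ht
  · have n1 := near i t1 ht1 (by omega)
    have n2 := near t1 t2 ht (by omega)
    have n3 := near t2 (i + d) ht2' (by omega)
    rw [hp1] at n1
    rw [hp1, hp2] at n2
    rw [hpos, hp2] at n3
    have e1 : (τ i).pos - (s0 : ZMod m) - (τ i).pos = - (s0 : ZMod m) := by ring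
    have e2 : (τ i).pos - (s0 : ZMod m) + ((34 * J + 1 : ℕ) : ZMod m) -
      ((τ i).pos - (s0 : ZMod m)) = ((34 * J + 1 : ℕ) : ZMod m) := by ring
    have e3 : (τ i).pos - (s0 : ZMod m) + ((22 * J + 1 + s1 : ℕ) : ZMod m) -
      ((τ i).pos - (s0 : ZMod m) + ((34 * J + 1 : ℕ) : ZMod m)) =
      ((22 * J + 1 + s1 : ℕ) : ZMod m) - ((34 * J + 1 : ℕ) : ZMod m) := by ring
    rw [e1, nm_neg, nm_cast _ (by omega)] at n1
    rw [e2, nm_cast _ (by omega)] at n2
    rw [e3, nm_sub_cast _ _ (by omega)] at n3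
    omega
  · have n1 := near i t2 ht2 (by omega)
    have n2 := near t2 t1 ht (by omega)
    have n3 := near t1 (i + d) ht1' (by omega)
    rw [hp2] at n1
    rw [hp1, hp2] at n2
    rw [hpos, hp1] at n3
    have e1 : (τ i).pos - (s0 : ZMod m) + ((34 * J + 1 : ℕ) : ZMod m) - (τ i).pos =
      ((34 * J + 1 : ℕ) : ZMod m) - (s0 : ZMod m) := by ring
    have e2 : (τ i).pos - (s0 : ZMod m) -
      ((τ i).pos - (s0 : ZMod m) + ((34 * J + 1 : ℕ) : ZMod m)) =
      - ((34 * J + 1 : ℕ) : ZMod m) := by ring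
    have e3 : (τ i).pos - (s0 : ZMod m) + ((22 * J + 1 + s1 : ℕ) : ZMod m) -
      ((τ i).pos - (s0 : ZMod m)) = ((22 * J + 1 + s1 : ℕ) : ZMod m) := by ring
    rw [e1, nm_sub_cast _ _ (by omega)] at n1
    rw [e2, nm_neg, nm_cast _ (by omega)] at n2
    rw [e3, nm_cast _ (by omega)] at n3
    omega

/-- every time is close to a time at which the walk is in the translate of the seed -/
theorem good_near (hm : 200 * J + 10 ≤ m) (h : SeedOK J s0 s1 G) {τ : ℕ → LG m} (u : LG m)
    (hT : ∀ i ≤ 48 * J + 1, ∃ j ≤ 49 * J + 1, sw m J s0 s1 G i * u = τ j)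
    (k : ℕ) (hk : k ≤ 49 * J + 1) :
    ∃ k' ≤ 49 * J + 1, k' ≤ k + 5 * J ∧ k ≤ k' + 5 * J ∧
      ∃ i, τ k' = sw m J s0 s1 G i * u := by
  classical
  have h' := h
  obtain ⟨hJ, h0, h0', h1, h1', -, -, -⟩ := h'
  choose f hf1 hf2 using hT
  by_contra hcon
  push Not at hcon
  obtain ⟨a, ha⟩ : ∃ a, a = min k (44 * J + 1) := ⟨_, rfl⟩
  have hdisj : Disjoint (Finset.Icc a (a + 5 * J))
      ((Finset.range (s0 + (34 * J + 1) + (12 * J - s1) + 1)).attach.image
        (fun i => f i.1 (by have := Finset.mem_range.1 i.2; omega))) := by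
    rw [Finset.disjoint_left]
    intro x hx hx'
    rw [Finset.mem_Icc] at hx
    rw [Finset.mem_image] at hx'
    obtain ⟨i, -, hi⟩ := hx'
    have hi2 := Finset.mem_range.1 i.2
    have e := hf2 i.1 (by omega)
    rw [hi] at e
    exact hcon x (by omega) (by omega) (by omega) i.1 e.symm
  have hsub : (Finset.Icc a (a + 5 * J)) ∪
      ((Finset.range (s0 + (34 * J + 1) + (12 * J - s1) + 1)).attach.image
        (fun i => f i.1 (by have := Finset.mem_range.1 i.2; omega))) ⊆
      Finset.range (49 * J + 2) := by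
    intro x hx
    rw [Finset.mem_union, Finset.mem_Icc, Finset.mem_image] at hx
    rw [Finset.mem_range]
    rcases hx with hx | ⟨i, -, hi⟩
    · omega
    · have hi2 := Finset.mem_range.1 i.2
      have e := hf1 i.1 (by omega)
      rw [hi] at e
      omega
  have hcard := Finset.card_le_card hsub
  rw [Finset.card_union_of_disjoint hdisj, Finset.card_range, Nat.card_Icc,
    Finset.card_image_of_injective, Finset.card_attach, Finset.card_range] at hcard
  · omega
  · intro i j hij
    have hi2 := Finset.mem_range.1 i.2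
    have hj2 := Finset.mem_range.1 j.2
    have e1 := hf2 i.1 (by omega)
    have e2 := hf2 j.1 (by omega)
    simp only at hij
    rw [hij, ← e2] at e1
    exact Subtype.ext (sw_inj hm h (by omega) (by omega) (mul_right_cancel e1))

/-- the parameters of the possible survivors and end points -/
abbrev Par (J : ℕ) : Type :=
  Fin (12 * J + 1) × Fin (12 * J + 1) × (Fin (12 * J + 1) → ZMod 2) × (Fin (12 * J + 1) → ZMod 2)

/-- the configuration given by two windows -/
def win (J : ℕ) (H1 H2 : Fin (12 * J + 1) → ZMod 2) (o : ℕ) : ZMod 2 :=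
  if h : o < 12 * J + 1 then H1 ⟨o, h⟩
  else if h : 22 * J + 1 ≤ o ∧ o ≤ 34 * J + 1 then H2 ⟨o - (22 * J + 1), by omega⟩ else 0

variable (m) in
/-- the survivor and the end point -/
def Pz (J : ℕ) (p : Par J) : Cf m × LG m :=
  (fun y => if (y + ((p.1 : ℕ) : ZMod m)).val ≤ 12 * J then
      win J p.2.2.1 p.2.2.2 (y + ((p.1 : ℕ) : ZMod m)).val else 0,
    ⟨((22 * J + 1 + (p.2.1 : ℕ) : ℕ) : ZMod m) - ((p.1 : ℕ) : ZMod m),
      fun y => win J p.2.2.1 p.2.2.2 (y + ((p.1 : ℕ) : ZMod m)).val⟩)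

theorem forward (hm : 200 * J + 10 ≤ m) (h : SeedOK J s0 s1 G) {τ : ℕ → LG m}
    (hτ : IsWalk (Sl m) (49 * J + 1) τ) (u : LG m)
    (hT : ∀ i ≤ 48 * J + 1, ∃ j ≤ 49 * J + 1, sw m J s0 s1 G i * u = τ j)
    (j0 d : ℕ) (hj : j0 + d ≤ 49 * J + 1) (hu : τ j0 = u)
    (hv : τ (j0 + d) = sw m J s0 s1 G (48 * J + 1) * u) :
    ∃ z' : Cf m, (∀ j ≤ 49 * J + 1, τ j • z' ∈ Rd (17 * J)) ∧
      ∃ p : Par J, Pz m J p = (z', τ (49 * J + 1)) := by
  have hd := sw_dist hm h hτ j0 d hj (by rw [hv, hu])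
  have h' := h
  obtain ⟨hJ, h0, h0', h1, h1', g0, gL, gw⟩ := h'
  refine ⟨u⁻¹ • zs m J s0 G, ?_, ?_⟩
  · intro k hk
    obtain ⟨k', hk', ha, hb, i, hi⟩ := good_near hm h u hT k hk
    have hz : τ k' • (u⁻¹ • zs m J s0 G) ∈ Rd (12 * J) := by
      rw [hi, mul_smul, smul_inv_smul]
      exact sw_zs h i
    rcases le_total k k' with hkk | hkk
    · have := Rd_walk' hτ (u⁻¹ • zs m J s0 G) (12 * J) k (k' - k) (by omega)
        (by rw [show k + (k' - k) = k' by omega]; exact hz)
      exact Rd_mono (by omega) this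
    · have := Rd_walk hτ (u⁻¹ • zs m J s0 G) (12 * J) k' (k - k') (by omega) hz
      rw [show k' + (k - k') = k by omega] at this
      exact Rd_mono (by omega) this
  · -- the beginning of the walk
    obtain ⟨nu, cu⟩ := near_walk hτ 0 j0 (by omega)
    rw [zero_add, hτ.1, hu, LG.one_pos, sub_zero] at nu
    rw [zero_add, hτ.1, hu] at cu
    obtain ⟨nv, cv⟩ := near_walk hτ (j0 + d) (49 * J + 1 - (j0 + d)) (by omega)
    rw [show j0 + d + (49 * J + 1 - (j0 + d)) = 49 * J + 1 by omega] at nv cv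
    have cN : cur J s0 s1 (48 * J + 1) = 22 * J + 1 + s1 := by
      unfold cur; split_ifs <;> omega
    have pN : prg J s0 (48 * J + 1) = 34 * J + 2 := by
      unfold prg; split_ifs <;> omega
    have hvpos : (τ (j0 + d)).pos = ((22 * J + 1 + s1 : ℕ) : ZMod m) - (s0 : ZMod m) + u.pos := by
      rw [hv, LG.mul_pos, sw_pos, cN]
    -- the two cursor offsets
    obtain ⟨x, hx⟩ : ∃ x, x = (τ (49 * J + 1)).pos - (τ (j0 + d)).pos := ⟨_, rfl⟩
    rw [← hx] at nv
    have hi0 := val_near s0 (5 * J) (-u.pos) (by rw [nm_neg]; omega) (by omega) (by omega)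
    have hi1 := val_near s1 (5 * J) x (by omega) (by omega) (by omega)
    obtain ⟨i0, ei0⟩ : ∃ i0, i0 = ((s0 : ZMod m) + -u.pos).val := ⟨_, rfl⟩
    obtain ⟨i1, ei1⟩ : ∃ i1, i1 = ((s1 : ZMod m) + x).val := ⟨_, rfl⟩
    rw [← ei0] at hi0
    rw [← ei1] at hi1
    have ci0 : (i0 : ZMod m) = (s0 : ZMod m) - u.pos := by
      rw [ei0, ZMod.natCast_zmod_val, sub_eq_add_neg]
    have ci1 : (i1 : ZMod m) = (s1 : ZMod m) + x := by
      rw [ei1, ZMod.natCast_zmod_val]
    have hend : (τ (49 * J + 1)).pos = ((22 * J + 1 + i1 : ℕ) : ZMod m) - (i0 : ZMod m) := by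
      have : (τ (49 * J + 1)).pos = x + (τ (j0 + d)).pos := by rw [hx]; ring
      rw [this, hvpos]
      push_cast
      rw [ci0, ci1]
      ring
    -- supports
    have su : ∀ y, u.cfg y ≠ 0 → (y + (i0 : ZMod m)).val ≤ 12 * J := by
      intro y hy
      have := (cu y (by rw [LG.one_cfg]; exact hy.symm)).2
      have h2 := val_near s0 (5 * J) (y - u.pos) (by omega) (by omega) (by omega)
      have e : y + (i0 : ZMod m) = (s0 : ZMod m) + (y - u.pos) := by rw [ci0]; ring
      rw [e]
      omega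
    have sv : ∀ y, (τ (j0 + d)).cfg y ≠ (τ (49 * J + 1)).cfg y →
        22 * J + 1 ≤ (y + (i0 : ZMod m)).val ∧ (y + (i0 : ZMod m)).val ≤ 34 * J + 1 := by
      intro y hy
      have := (cv y hy).1
      rw [hvpos] at this
      have h2 := val_near (22 * J + 1 + s1) (5 * J)
        (y - (((22 * J + 1 + s1 : ℕ) : ZMod m) - (s0 : ZMod m) + u.pos)) (by omega) (by omega)
        (by omega)
      have e : y + (i0 : ZMod m) = ((22 * J + 1 + s1 : ℕ) : ZMod m) +
        (y - (((22 * J + 1 + s1 : ℕ) : ZMod m) - (s0 : ZMod m) + u.pos)) := by rw [ci0]; ring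
      rw [e]
      omega
    have cw : ∀ y, (τ (j0 + d)).cfg y =
        (if (y + (i0 : ZMod m)).val < 34 * J + 2 then G (y + (i0 : ZMod m)).val else 0) +
          u.cfg y := by
      intro y
      rw [hv, LG.mul_cfg, sw_cfg, pN]
      have e : y - u.pos + (s0 : ZMod m) = y + (i0 : ZMod m) := by rw [ci0]; ring
      rw [e]
    have stot : ∀ y, (τ (49 * J + 1)).cfg y ≠ 0 → (y + (i0 : ZMod m)).val ≤ 12 * J ∨
        (22 * J + 1 ≤ (y + (i0 : ZMod m)).val ∧ (y + (i0 : ZMod m)).val ≤ 34 * J + 1) := by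
      intro y hy
      by_cases hc : (τ (j0 + d)).cfg y = (τ (49 * J + 1)).cfg y
      · rw [← hc, cw] at hy
        by_cases hu0 : u.cfg y = 0
        · rw [hu0, add_zero] at hy
          by_cases h34 : (y + (i0 : ZMod m)).val < 34 * J + 2
          · rw [if_pos h34] at hy
            exact gw _ hy
          · rw [if_neg h34] at hy
            exact absurd rfl hy
        · left; exact su y hu0
      · right; exact sv y hc
    -- the windows
    have hwin : ∀ y : ZMod m, win J
        (fun o => (τ (49 * J + 1)).cfg (((o : ℕ) : ZMod m) - (i0 : ZMod m)))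
        (fun o => (τ (49 * J + 1)).cfg (((o + (22 * J + 1) : ℕ) : ZMod m) - (i0 : ZMod m)))
        (y + (i0 : ZMod m)).val = (τ (49 * J + 1)).cfg y := by
      intro y
      unfold win
      by_cases c1 : (y + (i0 : ZMod m)).val < 12 * J + 1
      · rw [dif_pos c1]
        simp only
        rw [ZMod.natCast_zmod_val, add_sub_cancel_right]
      · rw [dif_neg c1]
        by_cases c2 : 22 * J + 1 ≤ (y + (i0 : ZMod m)).val ∧ (y + (i0 : ZMod m)).val ≤ 34 * J + 1
        · rw [dif_pos c2]
          simp only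
          rw [show (y + (i0 : ZMod m)).val - (22 * J + 1) + (22 * J + 1) =
            (y + (i0 : ZMod m)).val by omega, ZMod.natCast_zmod_val, add_sub_cancel_right]
        · rw [dif_neg c2]
          by_contra hne
          rcases stot y (fun h => hne h.symm) with h' | h'
          · omega
          · exact c2 h'
    refine ⟨(⟨i0, by omega⟩, ⟨i1, by omega⟩,
      fun o => (τ (49 * J + 1)).cfg (((o : ℕ) : ZMod m) - (i0 : ZMod m)),
      fun o => (τ (49 * J + 1)).cfg (((o + (22 * J + 1) : ℕ) : ZMod m) - (i0 : ZMod m))), ?_⟩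
    unfold Pz
    simp only [hwin]
    refine Prod.ext ?_ ?_
    · funext y
      show (if (y + (i0 : ZMod m)).val ≤ 12 * J then (τ (49 * J + 1)).cfg y else 0) =
        (u⁻¹ • zs m J s0 G) y
      rw [LG.smul_apply, LG.inv_pos, LG.inv_cfg, neg_add_cancel_right, zs_apply]
      have e : y + -u.pos + (s0 : ZMod m) = y + (i0 : ZMod m) := by rw [ci0]; ring
      rw [e]
      by_cases c1 : (y + (i0 : ZMod m)).val ≤ 12 * J
      · rw [if_pos c1, if_pos c1]
        have hc : (τ (j0 + d)).cfg y = (τ (49 * J + 1)).cfg y := by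
          by_contra hc
          have := sv y hc
          omega
        rw [← hc, cw, if_pos (by omega)]
        generalize G _ = a
        generalize u.cfg y = b
        revert a b; decide
      · rw [if_neg c1, if_neg c1, zero_add]
        by_contra hne
        apply c1
        apply su
        intro h0
        rw [h0, neg_zero] at hne
        exact hne rfl
    · exact LG.ext hend.symm rfl

end Pool.Agent.H28.Grow
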