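import Pool.Agent.H28.Grow.Abs

/-!
# The lamplighter group over a cycle
-/

set_option autoImplicit false
set_option linter.unusedSectionVars false

namespace Pool.Agent.H28.Grow

/-- The lamplighter group over the cycle `ZMod m`. -/
@[ext] structure LG (m : ℕ) where
  /-- the position of the cursor -/
  pos : ZMod m
  /-- the lamps -/
  cfg : ZMod m → ZMod 2

/-- Configurations of lamps. -/
def Cf (m : ℕ) : Type := ZMod m → ZMod 2

variable {m : ℕ}

instance : Mul (LG m) := ⟨fun a b => ⟨a.pos + b.pos, fun y => a.cfg (y - b.pos) + b.cfg y⟩⟩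

instance : One (LG m) := ⟨⟨0, fun _ => 0⟩⟩

instance : Inv (LG m) := ⟨fun a => ⟨- a.pos, fun y => - a.cfg (y + a.pos)⟩⟩

theorem LG.mul_pos (a b : LG m) : (a * b).pos = a.pos + b.pos := rfl

theorem LG.mul_cfg (a b : LG m) (y : ZMod m) : (a * b).cfg y = a.cfg (y - b.pos) + b.cfg y := rfl

theorem LG.one_pos : (1 : LG m).pos = 0 := rfl

theorem LG.one_cfg (y : ZMod m) : (1 : LG m).cfg y = 0 := rfl

theorem LG.inv_pos (a : LG m) : (a⁻¹).pos = - a.pos := rfl

theorem LG.inv_cfg (a : LG m) (y : ZMod m) : (a⁻¹).cfg y = - a.cfg (y + a.pos) := rfl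

instance : Group (LG m) := Group.ofLeftAxioms
  (fun a b c => by
    ext y
    · simp only [LG.mul_pos, add_assoc]
    · simp only [LG.mul_cfg, LG.mul_pos, add_assoc]
      rw [show y - c.pos - b.pos = y - (b.pos + c.pos) by ring])
  (fun a => by
    ext y
    · simp only [LG.mul_pos, LG.one_pos, zero_add]
    · simp only [LG.mul_cfg, LG.one_cfg, zero_add])
  (fun a => by
    ext y
    · simp only [LG.mul_pos, LG.inv_pos, LG.one_pos, neg_add_cancel]
    · simp only [LG.mul_cfg, LG.inv_cfg, LG.one_cfg, sub_add_cancel, neg_add_cancel])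

instance : MulAction (LG m) (Cf m) where
  smul a f := fun y => f (y + a.pos) + a.cfg (y + a.pos)
  one_smul f := by
    funext y
    show f (y + 0) + 0 = f y
    rw [add_zero, add_zero]
  mul_smul a b f := by
    funext y
    show f (y + (a.pos + b.pos)) + (a.cfg (y + (a.pos + b.pos) - b.pos) +
      b.cfg (y + (a.pos + b.pos))) = f (y + a.pos + b.pos) + b.cfg (y + a.pos + b.pos) +
      a.cfg (y + a.pos)
    rw [show y + (a.pos + b.pos) - b.pos = y + a.pos by ring, ← add_assoc y]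
    ring

theorem LG.smul_apply (a : LG m) (f : Cf m) (y : ZMod m) :
    (a • f) y = f (y + a.pos) + a.cfg (y + a.pos) := rfl

instance [NeZero m] : Finite (Cf m) := inferInstanceAs (Finite (ZMod m → ZMod 2))

instance [NeZero m] : Finite (LG m) :=
  Finite.of_injective (fun a : LG m => (a.pos, a.cfg)) (fun a b h => by
    simp only [Prod.mk.injEq] at h
    exact LG.ext h.1 h.2)

variable (m) in
/-- The generators: move by at most one and change the lamps at the old and the new position. -/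
def Sl : Set (LG m) :=
  {a | (a.pos = 0 ∨ a.pos = 1 ∨ a.pos = -1) ∧ ∀ y, a.cfg y ≠ 0 → y = 0 ∨ y = a.pos}

theorem one_mem_Sl : (1 : LG m) ∈ Sl m := ⟨Or.inl rfl, fun y h => absurd rfl h⟩

theorem inv_mem_Sl : ∀ a ∈ Sl m, a⁻¹ ∈ Sl m := by
  rintro a ⟨h1, h2⟩
  refine ⟨?_, ?_⟩
  · rw [LG.inv_pos]
    rcases h1 with h | h | h <;> rw [h] <;> simp
  · intro y hy
    rw [LG.inv_cfg, neg_ne_zero] at hy
    rw [LG.inv_pos]
    rcases h2 _ hy with h | h
    · right; exact eq_neg_of_add_eq_zero_left h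
    · left; simpa using h

/-- distance to `0` on the cycle -/
def nm (x : ZMod m) : ℕ := x.valMinAbs.natAbs

theorem nm_zero : nm (0 : ZMod m) = 0 := by simp [nm]

theorem nm_neg (x : ZMod m) : nm (-x) = nm x := ZMod.natAbs_valMinAbs_neg x

theorem nm_add (x y : ZMod m) : nm (x + y) ≤ nm x + nm y :=
  (ZMod.natAbs_valMinAbs_add_le x y).trans (Int.natAbs_add_le _ _)

theorem nm_sub (x y : ZMod m) : nm (x - y) ≤ nm x + nm y := by
  rw [sub_eq_add_neg, ← nm_neg y]
  exact nm_add _ _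

theorem nm_sub_comm (x y : ZMod m) : nm (x - y) = nm (y - x) := by
  rw [← nm_neg, neg_sub]

theorem nm_tri (x y z : ZMod m) : nm (x - z) ≤ nm (x - y) + nm (y - z) := by
  have := nm_add (x - y) (y - z)
  rwa [sub_add_sub_cancel] at this

theorem nm_cast [NeZero m] (k : ℕ) (h : 2 * k ≤ m) : nm (k : ZMod m) = k := by
  unfold nm
  rw [ZMod.valMinAbs_natCast_of_le_half (by omega)]
  rfl

theorem nm_pm {x : ZMod m} (hx : x = 0 ∨ x = 1 ∨ x = -1) : nm x ≤ 1 := by
  have h1 : nm (1 : ZMod m) ≤ 1 := by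
    unfold nm
    rcases Nat.lt_or_ge m 2 with h | h
    · interval_cases m
      · decide
      · have : (1 : ZMod 1) = 0 := Subsingleton.elim _ _
        rw [this]; simp
    · have : NeZero m := ⟨by omega⟩
      have := nm_cast (m := m) 1 (by omega)
      rw [Nat.cast_one] at this
      exact this.le
  rcases hx with rfl | rfl | rfl
  · rw [nm_zero]; omega
  · exact h1
  · rw [nm_neg]; exact h1

/-- all lamps that are on are at distance at most `k` from the cursor -/
def Rd (k : ℕ) : Set (Cf m) := {f | ∀ y, f y ≠ 0 → nm y ≤ k}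

theorem Rd_mono {k k' : ℕ} (h : k ≤ k') {f : Cf m} (hf : f ∈ Rd k) : f ∈ Rd k' :=
  fun y hy => (hf y hy).trans h

theorem Rd_step {k : ℕ} {f : Cf m} (hf : f ∈ Rd k) {a : LG m} (ha : a ∈ Sl m) :
    a • f ∈ Rd (k + 1) := by
  intro y hy
  rw [LG.smul_apply] at hy
  have hx := nm_pm ha.1
  by_cases h : f (y + a.pos) = 0
  · rw [h, zero_add] at hy
    rcases ha.2 _ hy with h' | h'
    · have : y = - a.pos := eq_neg_of_add_eq_zero_left h'
      rw [this, nm_neg]
      omega
    · have : y = 0 := by simpa using h'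
      rw [this, nm_zero]
      omega
  · have h1 := hf _ h
    have h2 := nm_sub (y + a.pos) a.pos
    rw [add_sub_cancel_right] at h2
    omega

theorem Rd_walk {ℓ : ℕ} {τ : ℕ → LG m} (hτ : IsWalk (Sl m) ℓ τ) (z : Cf m) (r i : ℕ) :
    ∀ d, i + d ≤ ℓ → τ i • z ∈ Rd r → τ (i + d) • z ∈ Rd (r + d) := by
  intro d
  induction d with
  | zero => intro _ h; exact h
  | succ d ih =>
    intro hd h
    have h1 := ih (by omega) h
    have h2 := Rd_step h1 (hτ.2 (i + d) (by omega))
    rw [mul_smul, inv_smul_smul] at h2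
    exact h2

theorem Rd_walk' {ℓ : ℕ} {τ : ℕ → LG m} (hτ : IsWalk (Sl m) ℓ τ) (z : Cf m) (r i : ℕ) :
    ∀ d, i + d ≤ ℓ → τ (i + d) • z ∈ Rd r → τ i • z ∈ Rd (r + d) := by
  intro d
  induction d generalizing r with
  | zero => intro _ h; exact h
  | succ d ih =>
    intro hd h
    have h2 := Rd_step h (inv_mem_Sl _ (hτ.2 (i + d) (by omega)))
    rw [mul_inv_rev, inv_inv, mul_smul, show i + (d + 1) = i + d + 1 by ring,
      inv_smul_smul] at h2
    have h3 := ih (r + 1) (by omega) h2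
    rw [show r + (d + 1) = r + 1 + d by ring]
    exact h3

/-- `k` steps lead from `p` to `p'` -/
def Near (k : ℕ) (p p' : LG m) : Prop :=
  nm (p'.pos - p.pos) ≤ k ∧
    ∀ y, p.cfg y ≠ p'.cfg y → nm (y - p.pos) ≤ k ∧ nm (y - p'.pos) ≤ k

theorem step_pos {p p' : LG m} (h : p' * p⁻¹ ∈ Sl m) :
    p'.pos - p.pos = 0 ∨ p'.pos - p.pos = 1 ∨ p'.pos - p.pos = -1 := by
  have := h.1
  rwa [LG.mul_pos, LG.inv_pos, ← sub_eq_add_neg] at this

theorem step_cfg {p p' : LG m} (h : p' * p⁻¹ ∈ Sl m) (y : ZMod m) (hy : p.cfg y ≠ p'.cfg y) :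
    y = p.pos ∨ y = p'.pos := by
  have h2 := h.2 (y - p.pos)
  rw [LG.mul_cfg, LG.mul_pos, LG.inv_pos, LG.inv_cfg, sub_neg_eq_add, sub_add_cancel] at h2
  have h3 := h2 (by rw [← sub_eq_add_neg, sub_ne_zero]; exact hy.symm)
  rcases h3 with h3 | h3
  · left; exact sub_eq_zero.1 h3
  · right
    rw [← sub_eq_add_neg] at h3
    exact sub_left_injective h3

theorem near_walk {ℓ : ℕ} {τ : ℕ → LG m} (hτ : IsWalk (Sl m) ℓ τ) (i : ℕ) :
    ∀ d, i + d ≤ ℓ → Near d (τ i) (τ (i + d)) := by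
  intro d
  induction d with
  | zero =>
    intro _
    refine ⟨?_, ?_⟩
    · rw [add_zero, sub_self, nm_zero]
    · intro y hy
      exact absurd rfl hy
  | succ d ih =>
    intro hd
    obtain ⟨h1, h2⟩ := ih (by omega)
    have hs := hτ.2 (i + d) (by omega)
    have h3 := nm_pm (step_pos hs)
    have h4 := nm_tri (τ (i + d + 1)).pos (τ (i + d)).pos (τ i).pos
    rw [show i + (d + 1) = i + d + 1 by ring]
    refine ⟨by omega, ?_⟩
    intro y hy
    by_cases hc : (τ i).cfg y = (τ (i + d)).cfg y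
    · rw [hc] at hy
      rcases step_cfg hs y hy with rfl | rfl
      · refine ⟨by omega, ?_⟩
        rw [nm_sub_comm]; omega
      · refine ⟨by omega, ?_⟩
        rw [sub_self, nm_zero]; omega
    · obtain ⟨h5, h6⟩ := h2 y hc
      refine ⟨by omega, ?_⟩
      have h7 := nm_tri y (τ (i + d)).pos (τ (i + d + 1)).pos
      rw [nm_sub_comm (τ (i + d)).pos] at h7
      omega

/-- a lamp whose state changes is visited -/
theorem visit {ℓ : ℕ} {τ : ℕ → LG m} (hτ : IsWalk (Sl m) ℓ τ) (i : ℕ) (y : ZMod m) :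
    ∀ d, i + d ≤ ℓ → (τ i).cfg y ≠ (τ (i + d)).cfg y → ∃ t, i ≤ t ∧ t ≤ i + d ∧ (τ t).pos = y := by
  intro d
  induction d with
  | zero => intro _ h; exact absurd rfl h
  | succ d ih =>
    intro hd h
    by_cases hc : (τ i).cfg y = (τ (i + d)).cfg y
    · rw [hc] at h
      rcases step_cfg (hτ.2 (i + d) (by omega)) y h with h' | h'
      · exact ⟨i + d, by omega, by omega, h'.symm⟩
      · exact ⟨i + (d + 1), by omega, by omega, h'.symm⟩
    · obtain ⟨t, h1, h2, h3⟩ := ih (by omega) hc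
      exact ⟨t, h1, by omega, h3⟩

end Pool.Agent.H28.Grow
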