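import Pool.Agent.H28.Grow.Final

/-!
# The counterexample in terms of Haar measures
-/

set_option autoImplicit false
set_option linter.unusedSectionVars false

open MeasureTheory
open scoped Pointwise

namespace Pool.Agent.H28.Grow

theorem count_eq_ncard {G : Type} [Finite G] [MeasurableSpace G] (hG : ∀ s : Set G, MeasurableSet s)
    (s : Set G) : (Measure.count : Measure G) s = (s.ncard : ENNReal) := by
  rw [Measure.count_apply (hG s), ← (Set.toFinite s).cast_ncard_eq, ENat.toENNReal_coe]

theorem main_measure (n₀ : ℕ) (C : ℝ) :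
    ∃ (G : Type) (_ : Group G) (_ : TopologicalSpace G) (_ : IsTopologicalGroup G)
      (_ : T2Space G) (_ : LocallyCompactSpace G) (_ : MeasurableSpace G) (_ : BorelSpace G)
      (μ : Measure G) (_ : μ.IsHaarMeasure) (_ : μ.Regular) (S : Set G) (n : ℕ),
      Finite G ∧ DiscreteTopology G ∧ μ = Measure.count ∧
      IsOpen S ∧ IsCompact (closure S) ∧ S⁻¹ = S ∧ (1 : G) ∈ S ∧ n₀ ≤ n ∧
      μ (S ^ ⌈(1 + (1 / 49 : ℝ)) * n⌉₊) ≤ ENNReal.ofReal 289 * μ (S ^ n) ∧
      ENNReal.ofReal C * μ (S ^ n) < μ (S ^ (3 * n)) := by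
  obtain ⟨J, hJ⟩ : ∃ J, J = n₀ + 1 := ⟨_, rfl⟩
  obtain ⟨G, hG, hfin, S, hS, h1, hK, hC⟩ := main_comb J ⌈C⌉₊ (by omega)
  let _ : TopologicalSpace G := ⊥
  have hdisc : DiscreteTopology G := ⟨rfl⟩
  let _ : MeasurableSpace G := ⊤
  have hmeas : ∀ s : Set G, MeasurableSet s := fun _ => trivial
  have hborel : BorelSpace G := ⟨borel_eq_top_of_discrete.symm⟩
  have hms : MeasurableSingletonClass G := ⟨fun _ => trivial⟩
  have hhaar : (Measure.count : Measure G).IsHaarMeasure :=
    { lt_top_of_isCompact := by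
        intro K _
        rw [count_eq_ncard hmeas]
        exact ENNReal.natCast_lt_top _
      open_pos := by
        intro U _ hU
        rw [count_eq_ncard hmeas]
        have := (Set.ncard_pos (Set.toFinite U)).2 hU
        exact_mod_cast this.ne' }
  have hreg : (Measure.count : Measure G).Regular := inferInstance
  refine ⟨G, hG, inferInstance, inferInstance, inferInstance, inferInstance, inferInstance,
    hborel, Measure.count, hhaar, hreg, S, 48 * J + 1, hfin, hdisc, rfl, isOpen_discrete _,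
    (Set.toFinite _).isCompact, hS, h1, by omega, ?_, ?_⟩
  · have hle : ⌈(1 + (1 / 49 : ℝ)) * ((48 * J + 1 : ℕ) : ℝ)⌉₊ ≤ 49 * J + 1 := by
      rw [Nat.ceil_le]
      push_cast
      have : (1 : ℝ) ≤ J := by exact_mod_cast (show 1 ≤ J by omega)
      linarith
    refine (measure_mono (Set.pow_subset_pow_right h1 hle)).trans ?_
    rw [count_eq_ncard hmeas, count_eq_ncard hmeas]
    have e : ENNReal.ofReal 289 = ((289 : ℕ) : ENNReal) := by
      rw [← ENNReal.ofReal_natCast]; norm_num
    rw [e]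
    exact_mod_cast hK
  · rw [count_eq_ncard hmeas, count_eq_ncard hmeas]
    have e : ENNReal.ofReal C ≤ ((⌈C⌉₊ : ℕ) : ENNReal) := by
      rw [← ENNReal.ofReal_natCast]
      exact ENNReal.ofReal_le_ofReal (Nat.le_ceil C)
    refine (mul_le_mul_left e _).trans_lt ?_
    exact_mod_cast hC

end Pool.Agent.H28.Grow
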