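import Pool.Agent.H28.Grow.Lamp

/-!
# The seeds: rigid walks on the lamplighter group
-/

set_option autoImplicit false
set_option linter.unusedSectionVars false

namespace Pool.Agent.H28.Grow

variable {m : ℕ} [NeZero m]

theorem nm_natCast_le (k : ℕ) : nm (k : ZMod m) ≤ k := by
  induction k with
  | zero => rw [Nat.cast_zero, nm_zero]
  | succ k ih =>
    rw [Nat.cast_succ]
    have h1 := nm_add (k : ZMod m) 1
    have h2 : nm (1 : ZMod m) ≤ 1 := nm_pm (Or.inr (Or.inl rfl))
    omega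

theorem nm_sub_cast_le (a b : ℕ) : nm ((a : ZMod m) - (b : ZMod m)) ≤ (a - b) + (b - a) := by
  rcases le_total a b with h | h
  · have : (a : ZMod m) - (b : ZMod m) = - ((b - a : ℕ) : ZMod m) := by
      rw [Nat.cast_sub h]; ring
    rw [this, nm_neg]
    have := nm_natCast_le (m := m) (b - a)
    omega
  · have : (a : ZMod m) - (b : ZMod m) = ((a - b : ℕ) : ZMod m) := by
      rw [Nat.cast_sub h]
    rw [this]
    have := nm_natCast_le (m := m) (a - b)
    omega

theorem nm_sub_cast (a b : ℕ) (h : 2 * ((a - b) + (b - a)) ≤ m) :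
    nm ((a : ZMod m) - (b : ZMod m)) = (a - b) + (b - a) := by
  rcases le_total a b with h' | h'
  · have : (a : ZMod m) - (b : ZMod m) = - ((b - a : ℕ) : ZMod m) := by
      rw [Nat.cast_sub h']; ring
    rw [this, nm_neg, nm_cast _ (by omega)]
    omega
  · have : (a : ZMod m) - (b : ZMod m) = ((a - b : ℕ) : ZMod m) := by
      rw [Nat.cast_sub h']
    rw [this, nm_cast _ (by omega)]
    omega

theorem nm_eq_val (x : ZMod m) (h : 2 * x.val ≤ m) : nm x = x.val := by
  have := nm_cast (m := m) x.val h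
  rwa [ZMod.natCast_zmod_val] at this

theorem val_near (c k : ℕ) (x : ZMod m) (hx : nm x ≤ k) (h1 : k ≤ c) (h2 : c + k < m) :
    c ≤ ((c : ZMod m) + x).val + k ∧ ((c : ZMod m) + x).val ≤ c + k := by
  have ht : ((x.valMinAbs : ℤ) : ZMod m) = x := ZMod.coe_valMinAbs x
  have hx' : x.valMinAbs.natAbs ≤ k := hx
  obtain ⟨d, hd⟩ := Int.eq_ofNat_of_zero_le (show 0 ≤ (c : ℤ) + x.valMinAbs by omega)
  have e : (c : ZMod m) + x = (d : ZMod m) := by
    have := congrArg (Int.cast : ℤ → ZMod m) hd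
    rw [Int.cast_add, ht] at this
    exact_mod_cast this
  rw [e, ZMod.val_cast_of_lt (by omega)]
  omega

theorem step_mem {p p' : LG m}
    (h1 : p'.pos - p.pos = 0 ∨ p'.pos - p.pos = 1 ∨ p'.pos - p.pos = -1)
    (h2 : ∀ y, p.cfg y ≠ p'.cfg y → y = p.pos ∨ y = p'.pos) : p' * p⁻¹ ∈ Sl m := by
  refine ⟨?_, ?_⟩
  · rwa [LG.mul_pos, LG.inv_pos, ← sub_eq_add_neg]
  · intro y hy
    rw [LG.mul_cfg, LG.inv_pos, LG.inv_cfg, sub_neg_eq_add, ← sub_eq_add_neg, sub_ne_zero] at hy
    rw [LG.mul_pos, LG.inv_pos, ← sub_eq_add_neg]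
    rcases h2 _ hy.symm with h | h
    · left
      simpa using h
    · right
      exact eq_sub_of_add_eq h

/-- The conditions on a seed. -/
structure SeedOK (J s0 s1 : ℕ) (G : ℕ → ZMod 2) : Prop where
  J1 : 1 ≤ J
  h0 : 5 * J ≤ s0
  h0' : s0 ≤ 7 * J
  h1 : 5 * J ≤ s1
  h1' : s1 ≤ 7 * J
  g0 : G 0 = 1
  gL : G (34 * J + 1) = 1
  gw : ∀ o, G o ≠ 0 → o ≤ 12 * J ∨ (22 * J + 1 ≤ o ∧ o ≤ 34 * J + 1)

/-- the offset of the cursor at time `i` -/
def cur (J s0 s1 i : ℕ) : ℕ :=
  if i ≤ s0 + (34 * J + 1) then (s0 - i) + (i - s0)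
  else (34 * J + 1) - min (i - s0 - (34 * J + 1)) (12 * J - s1)

/-- the number of lamps treated at time `i` -/
def prg (J s0 i : ℕ) : ℕ := if i ≤ s0 then 0 else min (i - s0) (34 * J + 1) + 1

variable (m) in
/-- the walk of a seed -/
def sw (J s0 s1 : ℕ) (G : ℕ → ZMod 2) (i : ℕ) : LG m :=
  ⟨(cur J s0 s1 i : ZMod m) - (s0 : ZMod m),
    fun y => if (y + (s0 : ZMod m)).val < prg J s0 i then G (y + (s0 : ZMod m)).val else 0⟩

variable (m) in
/-- the survivor of a seed -/
def zs (J s0 : ℕ) (G : ℕ → ZMod 2) : Cf m :=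
  fun y => if (y + (s0 : ZMod m)).val ≤ 12 * J then G (y + (s0 : ZMod m)).val else 0

variable {J s0 s1 : ℕ} {G : ℕ → ZMod 2}

theorem sw_pos (i : ℕ) : (sw m J s0 s1 G i).pos = (cur J s0 s1 i : ZMod m) - (s0 : ZMod m) := rfl

theorem sw_cfg (i : ℕ) (y : ZMod m) : (sw m J s0 s1 G i).cfg y =
    if (y + (s0 : ZMod m)).val < prg J s0 i then G (y + (s0 : ZMod m)).val else 0 := rfl

theorem zs_apply (y : ZMod m) : zs m J s0 G y =
    if (y + (s0 : ZMod m)).val ≤ 12 * J then G (y + (s0 : ZMod m)).val else 0 := rfl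

theorem val_eq_imp {y : ZMod m} {s c : ℕ} (h : (y + (s : ZMod m)).val = c) :
    y = (c : ZMod m) - (s : ZMod m) := by
  rw [← h, ZMod.natCast_zmod_val, add_sub_cancel_right]

theorem sw_walk (h : SeedOK J s0 s1 G) (n : ℕ) : IsWalk (Sl m) n (sw m J s0 s1 G) := by
  obtain ⟨hJ, h0, h0', h1, h1', -, -, -⟩ := h
  refine ⟨?_, ?_⟩
  · ext y
    · rw [sw_pos, LG.one_pos]
      have : cur J s0 s1 0 = s0 := by
        unfold cur
        rw [if_pos (by omega)]; omega
      rw [this, sub_self]
    · rw [sw_cfg, LG.one_cfg]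
      have : prg J s0 0 = 0 := by
        unfold prg
        rw [if_pos (by omega)]
      rw [this, if_neg (by omega)]
  · intro i _
    apply step_mem
    · rw [sw_pos, sw_pos, sub_sub_sub_cancel_right]
      have : cur J s0 s1 (i + 1) = cur J s0 s1 i ∨ cur J s0 s1 (i + 1) = cur J s0 s1 i + 1 ∨
          cur J s0 s1 i = cur J s0 s1 (i + 1) + 1 := by
        unfold cur
        split_ifs <;> omega
      rcases this with e | e | e
      · left; rw [e, sub_self]
      · right; left; rw [e, Nat.cast_succ]; ring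
      · right; right; rw [e, Nat.cast_succ]; ring
    · intro y hy
      rw [sw_cfg, sw_cfg] at hy
      rw [sw_pos, sw_pos]
      have : (y + (s0 : ZMod m)).val = cur J s0 s1 i ∨
          (y + (s0 : ZMod m)).val = cur J s0 s1 (i + 1) := by
        by_contra hcon
        push Not at hcon
        apply hy
        have key : (y + (s0 : ZMod m)).val < prg J s0 i ↔
            (y + (s0 : ZMod m)).val < prg J s0 (i + 1) := by
          revert hcon
          generalize (y + (s0 : ZMod m)).val = o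
          unfold cur prg
          intro hcon
          split_ifs at * <;> omega
        by_cases hc : (y + (s0 : ZMod m)).val < prg J s0 i
        · rw [if_pos hc, if_pos (key.1 hc)]
        · rw [if_neg hc, if_neg (fun h => hc (key.2 h))]
      rcases this with h | h
      · left; exact val_eq_imp h
      · right; exact val_eq_imp h

theorem zmod2_add_self (a : ZMod 2) : a + a = 0 := by
  revert a; decide

/-- the survivor stays near the cursor -/
theorem sw_zs (h : SeedOK J s0 s1 G) (i : ℕ) : sw m J s0 s1 G i • zs m J s0 G ∈ Rd (12 * J) := by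
  obtain ⟨hJ, h0, h0', h1, h1', g0, gL, gw⟩ := h
  intro y hy
  rw [LG.smul_apply, zs_apply, sw_cfg, sw_pos] at hy
  have e : y + ((cur J s0 s1 i : ZMod m) - (s0 : ZMod m)) + (s0 : ZMod m) =
      y + (cur J s0 s1 i : ZMod m) := by ring
  rw [e] at hy
  have hv : y = (((y + (cur J s0 s1 i : ZMod m)).val : ℕ) : ZMod m) -
      (cur J s0 s1 i : ZMod m) := val_eq_imp rfl
  rw [hv]
  refine (nm_sub_cast_le _ _).trans ?_
  revert hy
  generalize (y + (cur J s0 s1 i : ZMod m)).val = o
  intro hy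
  have hG : G o ≠ 0 := by
    intro h0
    apply hy
    rw [h0]
    simp
  have hw := gw o hG
  by_cases ho : o ≤ 12 * J
  · rw [if_pos ho] at hy
    have hp : ¬ o < prg J s0 i := by
      intro hp
      rw [if_pos hp, zmod2_add_self] at hy
      exact hy rfl
    revert hp
    unfold cur prg
    intro hp
    split_ifs at * <;> omega
  · rw [if_neg ho, zero_add] at hy
    have hp : o < prg J s0 i := by
      by_contra hp
      rw [if_neg hp] at hy
      exact hy rfl
    revert hp
    unfold cur prg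
    intro hp
    split_ifs at * <;> omega

/-- the survivor is unique -/
theorem sw_unique (hm : 200 * J + 10 ≤ m) (h : SeedOK J s0 s1 G) (z' : Cf m)
    (hz : ∀ i ≤ 48 * J + 1, sw m J s0 s1 G i • z' ∈ Rd (17 * J)) : z' = zs m J s0 G := by
  obtain ⟨hJ, h0, h0', h1, h1', g0, gL, gw⟩ := h
  have hA := hz s0 (by omega)
  have hB := hz (s0 + (34 * J + 1)) (by omega)
  have cA : cur J s0 s1 s0 = 0 := by
    unfold cur; rw [if_pos (by omega)]; omega
  have pA : prg J s0 s0 = 0 := by
    unfold prg; rw [if_pos le_rfl]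
  have cB : cur J s0 s1 (s0 + (34 * J + 1)) = 34 * J + 1 := by
    unfold cur; rw [if_pos le_rfl]; omega
  have pB : prg J s0 (s0 + (34 * J + 1)) = 34 * J + 2 := by
    unfold prg; rw [if_neg (by omega)]; omega
  funext Y
  have hA' : z' Y ≠ 0 → nm (Y + (s0 : ZMod m)) ≤ 17 * J := by
    intro hne
    apply hA
    rw [LG.smul_apply, sw_pos, sw_cfg, cA, pA, if_neg (by omega), Nat.cast_zero, zero_sub,
      add_zero, add_neg_cancel_right]
    exact hne
  have hB' : z' Y + (if (Y + (s0 : ZMod m)).val < 34 * J + 2 then G (Y + (s0 : ZMod m)).val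
      else 0) ≠ 0 → nm (Y + (s0 : ZMod m) - ((34 * J + 1 : ℕ) : ZMod m)) ≤ 17 * J := by
    intro hne
    apply hB
    rw [LG.smul_apply, sw_pos, sw_cfg, cB, pB]
    have e : Y + (s0 : ZMod m) - ((34 * J + 1 : ℕ) : ZMod m) +
      (((34 * J + 1 : ℕ) : ZMod m) - (s0 : ZMod m)) = Y := by ring
    rw [e]
    exact hne
  have htri := nm_tri (Y + (s0 : ZMod m)) (Y + (s0 : ZMod m) - ((34 * J + 1 : ℕ) : ZMod m)) 0
  rw [sub_sub_cancel, sub_zero, sub_zero, nm_cast (34 * J + 1) (by omega)] at htri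
  have htri' : 34 * J + 1 ≤ nm (Y + (s0 : ZMod m)) +
      nm (Y + (s0 : ZMod m) - ((34 * J + 1 : ℕ) : ZMod m)) := by
    have := nm_tri ((34 * J + 1 : ℕ) : ZMod m) (Y + (s0 : ZMod m)) 0
    rw [sub_zero, sub_zero, nm_sub_comm, nm_cast (34 * J + 1) (by omega)] at this
    omega
  have hval : (Y + (s0 : ZMod m)).val ≤ 34 * J + 1 →
      nm (Y + (s0 : ZMod m)) = (Y + (s0 : ZMod m)).val := by
    intro hle
    exact nm_eq_val _ (by omega)
  rw [zs_apply]
  by_cases hc : nm (Y + (s0 : ZMod m)) ≤ 17 * J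
  · have hz0 : z' Y + (if (Y + (s0 : ZMod m)).val < 34 * J + 2 then G (Y + (s0 : ZMod m)).val
      else 0) = 0 := by
      by_contra hne
      have := hB' hne
      omega
    have hz1 : z' Y = (if (Y + (s0 : ZMod m)).val < 34 * J + 2 then G (Y + (s0 : ZMod m)).val
      else 0) := by
      revert hz0
      generalize z' Y = a
      generalize (if (Y + (s0 : ZMod m)).val < 34 * J + 2 then G (Y + (s0 : ZMod m)).val
        else 0) = b
      revert a b; decide
    rw [hz1]
    by_cases h12 : (Y + (s0 : ZMod m)).val ≤ 12 * J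
    · rw [if_pos (by omega), if_pos h12]
    · rw [if_neg h12]
      by_cases h34 : (Y + (s0 : ZMod m)).val < 34 * J + 2
      · rw [if_pos h34]
        by_contra hne
        rcases gw _ hne with h' | h'
        · omega
        · have := hval (by omega)
          omega
      · rw [if_neg h34]
  · have hz0 : z' Y = 0 := by
      by_contra hne
      exact hc (hA' hne)
    rw [hz0]
    by_cases h12 : (Y + (s0 : ZMod m)).val ≤ 12 * J
    · have := hval (by omega)
      omega
    · rw [if_neg h12]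

end Pool.Agent.H28.Grow
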