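import Mathlib

/-!
# Powers of a set in a permutational wreath product

`WG L Ω A` is the semidirect product of `Ω → A` by `L`, and `GS Sg M` is the set
`U Sg U`, where `U` consists of the functions that vanish on `M ⊆ Ω`. Its `r`-th power is described
by walks of length `r` in `L`.
-/

set_option autoImplicit false
set_option linter.unusedSectionVars false

open scoped Pointwise

namespace Pool.Agent.H28.Grow

/-- The semidirect product of the functions `Ω → A` by `L`. -/
@[ext] structure WG (L Ω A : Type) where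
  /-- the function part -/
  v : Ω → A
  /-- the group part -/
  y : L

section

variable {L Ω A : Type} [Group L] [MulAction L Ω] [AddCommGroup A]

instance : Mul (WG L Ω A) := ⟨fun a b => ⟨fun z => a.v z + b.v (a.y⁻¹ • z), a.y * b.y⟩⟩

instance : One (WG L Ω A) := ⟨⟨fun _ => 0, 1⟩⟩

instance : Inv (WG L Ω A) := ⟨fun a => ⟨fun z => - a.v (a.y • z), a.y⁻¹⟩⟩

theorem mul_v (a b : WG L Ω A) (z : Ω) : (a * b).v z = a.v z + b.v (a.y⁻¹ • z) := rfl

theorem mul_y (a b : WG L Ω A) : (a * b).y = a.y * b.y := rfl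

theorem one_v (z : Ω) : (1 : WG L Ω A).v z = 0 := rfl

theorem one_y : (1 : WG L Ω A).y = 1 := rfl

theorem inv_v (a : WG L Ω A) (z : Ω) : (a⁻¹).v z = - a.v (a.y • z) := rfl

theorem inv_y (a : WG L Ω A) : (a⁻¹).y = a.y⁻¹ := rfl

instance : Group (WG L Ω A) := Group.ofLeftAxioms
  (fun a b c => by
    ext z
    · simp only [mul_v, mul_y, mul_inv_rev, mul_smul, add_assoc]
    · simp only [mul_y, mul_assoc])
  (fun a => by
    ext z
    · simp only [mul_v, one_v, one_y, inv_one, one_smul, zero_add]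
    · simp only [mul_y, one_y, one_mul])
  (fun a => by
    ext z
    · simp only [mul_v, inv_v, inv_y, inv_inv, one_v, neg_add_cancel]
    · simp only [mul_y, inv_y, one_y, inv_mul_cancel])

/-- A walk of length `r` from `1` with steps in `Sg`. -/
def IsWalk (Sg : Set L) (r : ℕ) (τ : ℕ → L) : Prop :=
  τ 0 = 1 ∧ ∀ i < r, τ (i + 1) * (τ i)⁻¹ ∈ Sg

variable (A) in
/-- The generating set `U Sg U`. -/
def GS (Sg : Set L) (M : Set Ω) : Set (WG L Ω A) :=
  {g | g.y⁻¹ ∈ Sg ∧ ∀ z ∈ M, g.y⁻¹ • z ∈ M → g.v z = 0}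

variable (A) in
/-- The elements given by walks of length `r`. -/
def Reach (Sg : Set L) (M : Set Ω) (r : ℕ) : Set (WG L Ω A) :=
  {g | ∃ τ : ℕ → L, IsWalk Sg r τ ∧ g.y = (τ r)⁻¹ ∧ ∀ z, (∀ i ≤ r, τ i • z ∈ M) → g.v z = 0}

theorem reach_one (Sg : Set L) (M : Set Ω) : Reach A Sg M 1 = GS A Sg M := by
  ext g
  constructor
  · rintro ⟨τ, ⟨h0, h1⟩, hy, hv⟩
    have e1 : g.y⁻¹ = τ 1 := by rw [hy, inv_inv]
    refine ⟨?_, ?_⟩
    · have := h1 0 (by norm_num)
      rw [h0, inv_one, mul_one] at this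
      rw [e1]
      exact this
    · intro z hz hz'
      apply hv z
      intro i hi
      rcases Nat.lt_or_ge i 1 with h | h
      · have : i = 0 := by omega
        rw [this, h0, one_smul]; exact hz
      · have : i = 1 := by omega
        rw [this, ← e1]; exact hz'
  · rintro ⟨h1, h2⟩
    refine ⟨fun i => if i = 0 then 1 else g.y⁻¹, ⟨by simp, ?_⟩, by simp, ?_⟩
    · intro i hi
      have : i = 0 := by omega
      subst this
      simpa using h1
    · intro z hz
      have h0 := hz 0 (by norm_num)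
      have h1 := hz 1 (by norm_num)
      simp only [if_true, one_smul, one_ne_zero, if_false] at h0 h1
      exact h2 z h0 h1

theorem reach_succ (Sg : Set L) (M : Set Ω) (r : ℕ) :
    Reach A Sg M (r + 1) = Reach A Sg M r * GS A Sg M := by
  classical
  ext g
  rw [Set.mem_mul]
  constructor
  · rintro ⟨τ, ⟨h0, h1⟩, hy, hv⟩
    refine ⟨⟨fun z => if (∀ i ≤ r, τ i • z ∈ M) then 0 else g.v z, (τ r)⁻¹⟩,
      ⟨τ, ⟨h0, fun i hi => h1 i (by omega)⟩, rfl, fun z hz => if_pos hz⟩,
      ⟨fun w => if (∀ i ≤ r, τ i • ((τ r)⁻¹ • w) ∈ M) then g.v ((τ r)⁻¹ • w) else 0,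
        τ r * (τ (r + 1))⁻¹⟩, ⟨?_, ?_⟩, ?_⟩
    · simp only [mul_inv_rev, inv_inv]
      exact h1 r (by omega)
    · intro w hw hw'
      simp only [mul_inv_rev, inv_inv, mul_smul] at hw'
      by_cases h : ∀ i ≤ r, τ i • ((τ r)⁻¹ • w) ∈ M
      · show (if _ then _ else _) = _
        rw [if_pos h]
        apply hv
        intro i hi
        rcases Nat.lt_or_ge i (r + 1) with h' | h'
        · exact h i (by omega)
        · have : i = r + 1 := by omega
          rw [this]; exact hw'
      · show (if _ then _ else _) = _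
        rw [if_neg h]
    · ext z
      · rw [mul_v]
        show (if (∀ i ≤ r, τ i • z ∈ M) then 0 else g.v z) +
          (if (∀ i ≤ r, τ i • ((τ r)⁻¹ • ((τ r)⁻¹⁻¹ • z)) ∈ M) then
            g.v ((τ r)⁻¹ • ((τ r)⁻¹⁻¹ • z)) else 0) = g.v z
        rw [inv_inv, inv_smul_smul]
        by_cases h : ∀ i ≤ r, τ i • z ∈ M
        · rw [if_pos h, if_pos h, zero_add]
        · rw [if_neg h, if_neg h, add_zero]
      · simp only [mul_y]
        rw [hy]
        group
  · rintro ⟨a, ⟨τ, ⟨h0, h1⟩, hy, hv⟩, b, ⟨hb1, hb2⟩, rfl⟩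
    refine ⟨fun i => if i ≤ r then τ i else b.y⁻¹ * τ r, ⟨by simp [h0], ?_⟩, ?_, ?_⟩
    · intro i hi
      by_cases h : i + 1 ≤ r
      · simp only [h, if_true, show i ≤ r by omega]
        exact h1 i (by omega)
      · have : i = r := by omega
        subst this
        simp only [show ¬ (i + 1 ≤ i) by omega, if_false, le_refl, if_true, mul_assoc,
          mul_inv_cancel, mul_one]
        exact hb1
    · simp only [show ¬ (r + 1 ≤ r) by omega, if_false, mul_y, mul_inv_rev, inv_inv, hy]
    · intro z hz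
      rw [mul_v]
      have ha : a.v z = 0 := by
        apply hv
        intro i hi
        have := hz i (by omega)
        simpa only [hi, if_true] using this
      have hb : b.v (a.y⁻¹ • z) = 0 := by
        rw [hy, inv_inv]
        apply hb2
        · have := hz r (by omega)
          simpa only [le_refl, if_true] using this
        · have := hz (r + 1) le_rfl
          simpa only [show ¬ (r + 1 ≤ r) by omega, if_false, mul_smul] using this
      rw [ha, hb, add_zero]

theorem pow_eq (Sg : Set L) (M : Set Ω) (r : ℕ) (hr : 1 ≤ r) :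
    (GS A Sg M) ^ r = Reach A Sg M r := by
  induction r, hr using Nat.le_induction with
  | base => rw [pow_one, reach_one]
  | succ r _ ih => rw [pow_succ, ih, reach_succ]

theorem GS_inv (Sg : Set L) (hSg : ∀ x ∈ Sg, x⁻¹ ∈ Sg) (M : Set Ω) :
    (GS A Sg M)⁻¹ = GS A Sg M := by
  have key : ∀ g : WG L Ω A, g ∈ GS A Sg M → g⁻¹ ∈ GS A Sg M := by
    rintro g ⟨h1, h2⟩
    refine ⟨?_, ?_⟩
    · rw [inv_y]; exact hSg _ h1
    · intro z hz hz'
      rw [inv_y, inv_inv] at hz'
      rw [inv_v, neg_eq_zero]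
      apply h2 _ hz'
      rw [inv_smul_smul]; exact hz
  ext g
  rw [Set.mem_inv]
  exact ⟨fun h => by simpa using key _ h, fun h => key _ h⟩

theorem one_mem_GS (Sg : Set L) (h1 : (1 : L) ∈ Sg) (M : Set Ω) : (1 : WG L Ω A) ∈ GS A Sg M := by
  refine ⟨by rw [one_y, inv_one]; exact h1, fun z _ _ => rfl⟩

end

/-- `WG` is in bijection with a product. -/
def WG.equivProd (L Ω A : Type) : WG L Ω A ≃ (Ω → A) × L where
  toFun a := (a.v, a.y)
  invFun a := ⟨a.1, a.2⟩
  left_inv _ := rfl
  right_inv _ := rfl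

instance {L Ω A : Type} [Finite L] [Finite Ω] [Finite A] : Finite (WG L Ω A) :=
  Finite.of_equiv _ (WG.equivProd L Ω A).symm

end Pool.Agent.H28.Grow
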